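import Mathlib

/-!
One-variable lemmas: local to global monotonicity, and functions with analytic lower supports.
-/

open Filter Topology Set

namespace Pool.Agent.MP_46692b_an.H78

theorem mono_of_right {f : ℝ → ℝ} {a b : ℝ} (hab : a ≤ b) (hc : ContinuousOn f (Icc a b))
    (h : ∀ x ∈ Ico a b, ∀ᶠ y in 𝓝[>] x, f x ≤ f y) : f a ≤ f b := by
  have hcl : IsClosed ({x | f a ≤ f x} ∩ Icc a b) := by
    rw [inter_comm]
    exact hc.preimage_isClosed_of_isClosed isClosed_Icc isClosed_Ici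
  refine hcl.Icc_subset_of_forall_exists_gt (le_refl (f a)) ?_ (right_mem_Icc.2 hab)
  rintro x ⟨hx1, hx2⟩ y hy
  obtain ⟨z, hz1, hz2⟩ := ((h x hx2).and (Ioc_mem_nhdsGT hy)).exists
  exact ⟨z, le_trans hx1 hz1, hz2⟩

theorem chain_rel {R : ℝ → ℝ → Prop} {T : ℝ} (hT : 0 < T)
    (htr : ∀ a ∈ Icc 0 T, ∀ b ∈ Icc 0 T, R 0 a → R a b → R 0 b)
    (hloc : ∀ t ∈ Icc 0 T, ∃ η > 0, ∀ a ∈ Icc 0 T, ∀ b ∈ Icc 0 T, |a - t| < η → |b - t| < η →
      a < b → R a b) : R 0 T := by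
  have hcl : IsClosed ({t | ∀ t' ∈ Ioc 0 t, R 0 t'} ∩ Icc 0 T) := by
    rw [← closure_subset_iff_isClosed]
    intro t ht
    have htI : t ∈ Icc 0 T := closure_minimal inter_subset_right isClosed_Icc ht
    have h1 : ∀ t' ∈ Ioo 0 t, R 0 t' := by
      intro t' ht'
      obtain ⟨a, ha, ha1, -⟩ := mem_closure_iff.1 ht (Ioi t') isOpen_Ioi ht'.2
      exact ha1 t' ⟨ht'.1, le_of_lt ha⟩
    refine ⟨fun t' ht' => ?_, htI⟩
    rcases ht'.2.lt_or_eq with h | rfl
    · exact h1 t' ⟨ht'.1, h⟩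
    · obtain ⟨η, hη, hl⟩ := hloc t' htI
      have h2 : 0 < min t' η := lt_min ht'.1 hη
      have h3 := min_le_left t' η
      have h4 := min_le_right t' η
      have hb : t' - min t' η / 2 ∈ Icc 0 T := ⟨by linarith, by linarith [htI.2]⟩
      refine htr _ hb _ htI (h1 _ ⟨by linarith, by linarith⟩) (hl _ hb _ htI ?_ ?_ (by linarith))
      · rw [abs_lt]
        constructor <;> linarith
      · simpa using hη
  have := hcl.Icc_subset_of_forall_exists_gt (fun t' ht' => absurd ht'.1 (not_lt.2 ht'.2)) (by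
    rintro x ⟨hx1, hx2⟩ y hy
    obtain ⟨η, hη, hl⟩ := hloc x (Ico_subset_Icc_self hx2)
    have hy' : x < y := hy
    have h2 : x < min (min y T) (x + η / 2) := lt_min (lt_min hy' hx2.2) (by linarith)
    have h3 := min_le_left (min y T) (x + η / 2)
    have h4 := min_le_right (min y T) (x + η / 2)
    have h5 := min_le_left y T
    have h6 := min_le_right y T
    refine ⟨min (min y T) (x + η / 2), fun t' ht' => ?_, h2, by linarith⟩
    rcases le_or_gt t' x with h | h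
    · exact hx1 t' ⟨ht'.1, h⟩
    · have ht'I : t' ∈ Icc 0 T := ⟨ht'.1.le, by linarith [ht'.2]⟩
      have hR : R x t' := by
        refine hl x (Ico_subset_Icc_self hx2) t' ht'I (by simpa using hη) ?_ h
        rw [abs_lt]
        constructor <;> linarith [ht'.2]
      rcases hx2.1.eq_or_lt with h0 | h0
      · rwa [← h0] at hR
      · exact htr x (Ico_subset_Icc_self hx2) t' ht'I (hx1 x ⟨h0, le_rfl⟩) hR)
    (right_mem_Icc.2 hT.le)
  exact this T ⟨hT, le_rfl⟩

theorem trichotomy {D : ℝ → ℝ} (hD : AnalyticAt ℝ D 0) (h0 : D 0 = 0) :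
    ∀ᶠ δ in 𝓝[>] (0 : ℝ), (∀ t ∈ Ico 0 δ, D t = 0) ∨ StrictMonoOn D (Ico 0 δ) ∨
      StrictAntiOn D (Ico 0 δ) := by
  obtain ⟨ε, hε, hb⟩ := Metric.eventually_nhds_iff_ball.1 hD.eventually_analyticAt
  have hsub : ∀ δ, δ < ε → Ico 0 δ ⊆ Metric.ball (0 : ℝ) ε := by
    intro δ hδ t ht
    rw [mem_ball_zero_iff, Real.norm_of_nonneg ht.1]
    exact ht.2.trans hδ
  rcases hD.deriv.eventually_eq_zero_or_eventually_ne_zero with h | h
  · obtain ⟨ε', hε', hb'⟩ := Metric.eventually_nhds_iff_ball.1 h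
    filter_upwards [Ioo_mem_nhdsGT (lt_min hε hε')] with δ hδ
    left
    intro t ht
    have h1 : Icc 0 t ⊆ Metric.ball (0 : ℝ) (min ε ε') := by
      intro x hx
      rw [mem_ball_zero_iff, Real.norm_of_nonneg hx.1]
      exact lt_of_le_of_lt hx.2 (ht.2.trans hδ.2)
    have h2 := constant_of_has_deriv_right_zero (f := D) (a := 0) (b := t)
      (fun x hx => (hb x (Metric.ball_subset_ball (min_le_left _ _) (h1 hx))).continuousAt
        |>.continuousWithinAt)
      (fun x hx => by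
        have hx' := h1 (Ico_subset_Icc_self hx)
        have h3 := (hb x (Metric.ball_subset_ball (min_le_left _ _) hx')).differentiableAt.hasDerivAt
        rw [hb' x (Metric.ball_subset_ball (min_le_right _ _) hx')] at h3
        exact h3.hasDerivWithinAt) t (right_mem_Icc.2 ht.1)
    rw [h2, h0]
  · have h1 : ∀ᶠ t in 𝓝[>] (0 : ℝ), deriv D t ≠ 0 :=
      h.filter_mono (nhdsWithin_mono _ fun t ht => ne_of_gt ht)
    obtain ⟨ε', hε', hb'⟩ := (nhdsGT_basis (0 : ℝ)).eventually_iff.1 h1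
    filter_upwards [Ioo_mem_nhdsGT (lt_min hε hε')] with δ hδ
    right
    have hδ1 : δ < ε := hδ.2.trans_le (min_le_left _ _)
    have hδ2 : δ < ε' := hδ.2.trans_le (min_le_right _ _)
    have hc : ContinuousOn D (Ico 0 δ) := fun x hx =>
      (hb x (hsub δ hδ1 hx)).continuousAt.continuousWithinAt
    have hc' : ContinuousOn (deriv D) (Ioo 0 δ) := fun x hx =>
      (hb x (hsub δ hδ1 (Ioo_subset_Ico_self hx))).deriv.continuousAt.continuousWithinAt
    rcases isPreconnected_Ioo.mapsTo_Ioi_or_Iio hc' (b := 0)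
      (fun x hx => hb' ⟨hx.1, hx.2.trans hδ2⟩) with h2 | h2
    · left
      refine strictMonoOn_of_deriv_pos (convex_Ico 0 δ) hc ?_
      rw [interior_Ico]
      exact h2
    · right
      refine strictAntiOn_of_deriv_neg (convex_Ico 0 δ) hc ?_
      rw [interior_Ico]
      exact h2

/-- A continuous function which at every small positive point has a lower support from a finite
family of analytic germs (up to constants) coincides with one of the germs. -/
theorem arc_lemma {ι : Type*} [Finite ι] (G : ι → ℝ → ℝ) (hG : ∀ i, AnalyticAt ℝ (G i) 0)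
    (hG0 : ∀ i, G i 0 = 0) (v : ℝ → ℝ) (hv : ∀ᶠ t in 𝓝 (0 : ℝ), ContinuousAt v t) (hv0 : v 0 = 0)
    (hS : ∀ᶠ t in 𝓝[>] (0 : ℝ), ∃ j, ∀ᶠ t' in 𝓝 t, v t - G j t ≤ v t' - G j t') :
    ∃ δ > 0, ∀ t ∈ Ioo 0 δ, ∀ j, (∀ᶠ t' in 𝓝 t, v t - G j t ≤ v t' - G j t') →
      ∀ t' ∈ Ioo 0 δ, v t' = G j t' := by
  classical
  set Sup : ℝ → ι → Prop := fun t j => ∀ᶠ t' in 𝓝 t, v t - G j t ≤ v t' - G j t' with hSup
  set T : Set ι := {j | ∃ᶠ t in 𝓝[>] (0 : ℝ), Sup t j} with hT
  have h1 : ∀ᶠ t in 𝓝[>] (0 : ℝ), ∀ j, Sup t j → j ∈ T := by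
    rw [eventually_all]
    intro j
    by_cases hj : j ∈ T
    · filter_upwards with t _ using hj
    · filter_upwards [not_frequently.1 hj] with t ht h using absurd h ht
  have h2 : ∀ᶠ t in 𝓝 (0 : ℝ), ContinuousAt v t ∧ ∀ j, ContinuousAt (G j) t := by
    refine hv.and (eventually_all.2 fun j => ?_)
    filter_upwards [(hG j).eventually_analyticAt] with t ht using ht.continuousAt
  obtain ⟨ε, hε, hb⟩ := (nhdsGT_basis (0 : ℝ)).eventually_iff.1
    ((hS.and h1).and (h2.filter_mono nhdsWithin_le_nhds))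
  have h3 : ∀ᶠ δ in 𝓝[>] (0 : ℝ), ∀ i j, (∀ t ∈ Ico 0 δ, G j t - G i t = 0) ∨
      StrictMonoOn (fun t => G j t - G i t) (Ico 0 δ) ∨
      StrictAntiOn (fun t => G j t - G i t) (Ico 0 δ) :=
    eventually_all.2 fun i => eventually_all.2 fun j =>
      trichotomy ((hG j).sub (hG i)) (by simp [hG0])
  obtain ⟨δ, htri, hδ⟩ := (h3.and (Ioo_mem_nhdsGT hε)).exists
  have hsub : Ioo 0 δ ⊆ Ioo 0 ε := Ioo_subset_Ioo_right hδ.2.le
  have hm : δ / 2 ∈ Ioo 0 δ := ⟨by linarith [hδ.1], by linarith [hδ.1]⟩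
  have hTne : T.Nonempty := by
    obtain ⟨j, hj⟩ := (hb (hsub hm)).1.1
    exact ⟨j, (hb (hsub hm)).1.2 j hj⟩
  obtain ⟨β, hβT, hmin⟩ := exists_min_image T (fun j => G j (δ / 2)) T.toFinite hTne
  have hdi : ∀ j ∈ T, (∀ t ∈ Ico 0 δ, G j t - G β t = 0) ∨
      StrictMonoOn (fun t => G j t - G β t) (Ico 0 δ) := by
    intro j hj
    rcases htri β j with h | h | h
    · exact Or.inl h
    · exact Or.inr h
    · exfalso
      have h4 := h (left_mem_Ico.2 hδ.1) (Ioo_subset_Ico_self hm) hm.1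
      have h5 := hmin j hj
      simp only [hG0] at h4 h5
      linarith
  have hfc : ∀ t ∈ Ico 0 δ, ContinuousAt (fun t => v t - G β t) t := by
    intro t ht
    rcases ht.1.eq_or_lt with h | h
    · rw [← h]
      exact h2.self_of_nhds.1.sub (h2.self_of_nhds.2 β)
    · have := (hb (hsub ⟨h, ht.2⟩)).2
      exact this.1.sub (this.2 β)
  have hfm : ∀ a ∈ Ioo 0 δ, ∀ b ∈ Ioo 0 δ, a ≤ b → v a - G β a ≤ v b - G β b := by
    intro a ha b hb' hab
    refine mono_of_right (f := fun t => v t - G β t) hab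
      (fun x hx => (hfc x ⟨ha.1.le.trans hx.1, hx.2.trans_lt hb'.2⟩).continuousWithinAt) ?_
    intro x hx
    have hx' : x ∈ Ioo 0 δ := ⟨ha.1.trans_le hx.1, hx.2.trans hb'.2⟩
    obtain ⟨j, hj⟩ := (hb (hsub hx')).1.1
    have hjT := (hb (hsub hx')).1.2 j hj
    filter_upwards [hj.filter_mono nhdsWithin_le_nhds, Ioo_mem_nhdsGT hx'.2] with y hy hy'
    have hy'' : y ∈ Ico 0 δ := ⟨(hx'.1.trans hy'.1).le, hy'.2⟩
    rcases hdi j hjT with h | h
    · have h4 := h x (Ioo_subset_Ico_self hx')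
      have h5 := h y hy''
      linarith
    · have h4 := h (Ioo_subset_Ico_self hx') hy'' hy'.1
      simp only at h4
      linarith
  -- if `v - G β` is constant to the right of `t`, every support at `t` equals `G β`
  have hcl : ∀ t ∈ Ioo 0 δ, (∀ᶠ t' in 𝓝[>] t, v t' - G β t' = v t - G β t) → ∀ j, Sup t j →
      ∀ t' ∈ Ico 0 δ, G j t' - G β t' = 0 := by
    intro t ht hconst j hj
    rcases hdi j ((hb (hsub ht)).1.2 j hj) with h | h
    · exact h
    · exfalso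
      obtain ⟨y, ⟨hy1, hy2⟩, hy3⟩ := (((hj.filter_mono nhdsWithin_le_nhds).and hconst).and
        (Ioo_mem_nhdsGT ht.2)).exists
      have h4 := h (Ioo_subset_Ico_self ht) ⟨(ht.1.trans hy3.1).le, hy3.2⟩ hy3.1
      simp only at h4
      linarith
  obtain ⟨t1, ht1S, ht1⟩ := (hβT.and_eventually (Ioo_mem_nhdsGT hδ.1)).exists
  have hconst : ∀ a ∈ Ioo 0 t1, v a - G β a = v t1 - G β t1 := by
    intro a ha
    have haδ : a ∈ Ioo 0 δ := ⟨ha.1, ha.2.trans ht1.2⟩
    have hK : IsCompact (Icc a t1 ∩ (fun t => v t - G β t) ⁻¹' Ici (v t1 - G β t1)) := by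
      refine isCompact_Icc.of_isClosed_subset ?_ inter_subset_left
      exact ContinuousOn.preimage_isClosed_of_isClosed
        (fun x hx => (hfc x ⟨ha.1.le.trans hx.1, hx.2.trans_lt ht1.2⟩).continuousWithinAt)
        isClosed_Icc isClosed_Ici
    obtain ⟨t2, ⟨ht2I, ht2f⟩, hleast⟩ := hK.exists_isLeast
      ⟨t1, right_mem_Icc.2 ha.2.le, le_refl (v t1 - G β t1)⟩
    have ht2δ : t2 ∈ Ioo 0 δ := ⟨ha.1.trans_le ht2I.1, ht2I.2.trans_lt ht1.2⟩
    have ht2f' : v t1 - G β t1 ≤ v t2 - G β t2 := ht2f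
    rcases ht2I.1.eq_or_lt with h | h
    · rw [← h] at ht2f'
      exact le_antisymm (hfm a haδ t1 ht1 ha.2.le) ht2f'
    · exfalso
      have hmin2 : ∀ᶠ t' in 𝓝 t2, v t2 - G β t2 ≤ v t' - G β t' := by
        rcases ht2I.2.eq_or_lt with h' | h'
        · rw [h']
          exact ht1S
        · obtain ⟨j, hj⟩ := (hb (hsub ht2δ)).1.1
          have h5 := hcl t2 ht2δ (by
            filter_upwards [Ioo_mem_nhdsGT h'] with y hy
            have hyδ : y ∈ Ioo 0 δ := ⟨ht2δ.1.trans hy.1, hy.2.trans ht1.2⟩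
            have h6 := hfm t2 ht2δ y hyδ hy.1.le
            have h7 := hfm y hyδ t1 ht1 hy.2.le
            linarith) j hj
          filter_upwards [hj, Ioo_mem_nhds ht2δ.1 ht2δ.2] with y hy hy'
          have h6 := h5 y (Ioo_subset_Ico_self hy')
          have h7 := h5 t2 (Ioo_subset_Ico_self ht2δ)
          linarith
      obtain ⟨y, hy1, hy2⟩ := ((hmin2.filter_mono nhdsWithin_le_nhds).and
        (Ioo_mem_nhdsLT h)).exists
      have := hleast ⟨⟨hy2.1.le, hy2.2.le.trans ht2I.2⟩, le_trans ht2f' hy1⟩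
      exact absurd hy2.2 (not_lt.2 this)
  have hzero : v t1 - G β t1 = 0 := by
    have h4 : Tendsto (fun t => v t - G β t) (𝓝[>] 0) (𝓝 (v 0 - G β 0)) :=
      (hfc 0 (left_mem_Ico.2 hδ.1)).tendsto.mono_left nhdsWithin_le_nhds
    have h5 : Tendsto (fun t => v t - G β t) (𝓝[>] 0) (𝓝 (v t1 - G β t1)) := by
      refine tendsto_const_nhds.congr' ?_
      filter_upwards [Ioo_mem_nhdsGT ht1.1] with a ha using (hconst a ha).symm
    rw [tendsto_nhds_unique h5 h4, hv0, hG0, sub_zero]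
  refine ⟨t1, ht1.1, fun t ht j hj t' ht' => ?_⟩
  have h5 := hcl t ⟨ht.1, ht.2.trans ht1.2⟩ (by
    filter_upwards [Ioo_mem_nhdsGT ht.2] with y hy
    rw [hconst y ⟨ht.1.trans hy.1, hy.2⟩, hconst t ht]) j hj t' ⟨ht'.1.le, ht'.2.trans ht1.2⟩
  have h6 := hconst t' ht'
  linarith

end Pool.Agent.MP_46692b_an.H78
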