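import Pool.Agent.MP_46692b_an.H78.Sector
import Pool.Agent.MP_46692b_an.H17.Germ

/-!
The complement of the layers near the origin is a finite union of analytic arcs, when the
branches are holomorphic at the origin.
-/

open Filter Topology Set Metric Complex

namespace Pool.Agent.MP_46692b_an.H78

variable {ι : Type*} {B Φ : ι → ℂ → ℂ} {Ω : ι → Set ℂ} {S : Set ℂ} {e : ℂ} {ℓ : ι → ℝ}
  {u : ℂ → ℝ}

/-- A regular analytic germ of an arc starting at the origin. -/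
def RegArc (γ : ℝ → ℂ) : Prop := AnalyticAt ℝ γ 0 ∧ γ 0 = 0 ∧ deriv γ 0 ≠ 0

/-- The potential agrees at `s` with the primitive of the layer just above `s`. -/
def Good (Φ : ι → ℂ → ℂ) (Ω : ι → Set ℂ) (u : ℂ → ℝ) (e s : ℂ) : Prop :=
  ∀ j, Up Ω e s j → u s = (Φ j s).re

theorem Lay.arc_in [Finite ι] (h : Lay B Ω S e ℓ) (hp : Pot B Φ Ω S u) (hu0 : u 0 = 0)
    (hΦ : ∀ i, AnalyticAt ℂ (Φ i) 0) (hΦ0 : ∀ i, Φ i 0 = 0) {γ : ℝ → ℂ} (hγ : AnalyticAt ℝ γ 0)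
    (hγ0 : γ 0 = 0) (hS : ∀ᶠ t in 𝓝[>] (0 : ℝ), γ t ∈ S) :
    ∀ᶠ δ in 𝓝[>] (0 : ℝ), ∀ t ∈ Ioo 0 δ, ∀ j, Up Ω e (γ t) j →
      ∀ t' ∈ Ioo 0 δ, u (γ t') = (Φ j (γ t')).re := by
  have hc : ∀ᶠ t in 𝓝 (0 : ℝ), ContinuousAt γ t := by
    filter_upwards [hγ.eventually_analyticAt] with t ht using ht.continuousAt
  obtain ⟨δ, hδ, hb⟩ := arc_lemma (fun j t => (Φ j (γ t)).re) (fun j => by
      have h1 : AnalyticAt ℝ (Φ j) (γ 0) := by
        rw [hγ0]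
        exact (hΦ j).restrictScalars
      exact (reCLM.analyticAt _).comp (h1.comp hγ))
    (fun j => by simp [hγ0, hΦ0]) (fun t => u (γ t))
    (by filter_upwards [hc] with t ht using hp.cont.continuousAt.comp ht) (by simp [hγ0, hu0])
    (by
      filter_upwards [hS, hc.filter_mono nhdsWithin_le_nhds] with t ht hct
      obtain ⟨j, hj⟩ := h.exists_up ht
      exact ⟨j, hct.eventually (h.support hp ht hj)⟩)
  obtain ⟨ε, hε, hb'⟩ := (nhdsGT_basis (0 : ℝ)).eventually_iff.1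
    (hS.and (hc.filter_mono nhdsWithin_le_nhds))
  filter_upwards [Ioo_mem_nhdsGT (lt_min hδ hε)] with δ' hδ' t ht j hj t' ht'
  have h1 : δ' < δ := hδ'.2.trans_le (min_le_left _ _)
  have h2 : δ' < ε := hδ'.2.trans_le (min_le_right _ _)
  have h3 := hb' ⟨ht.1, ht.2.trans h2⟩
  exact hb t ⟨ht.1, ht.2.trans h1⟩ j (h3.2.eventually (h.support hp h3.1 hj)) t'
    ⟨ht'.1, ht'.2.trans h1⟩

theorem RegArc.slope {γ : ℝ → ℂ} (hγ : RegArc γ) :
    Tendsto (fun t => t⁻¹ • γ t) (𝓝[>] 0) (𝓝 (deriv γ 0)) := by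
  have := hγ.1.differentiableAt.hasDerivAt.tendsto_slope_zero_right
  simpa [hγ.2.1] using this

theorem RegArc.mem_tri {γ : ℝ → ℂ} (hγ : RegArc γ) {X Y : ℂ →L[ℝ] ℝ} {η : ℝ} (hη : 0 < η)
    (hd : |Y (deriv γ 0)| < η * X (deriv γ 0)) : ∀ᶠ t in 𝓝[>] (0 : ℝ), γ t ∈ Tri X Y η := by
  have h1 := hγ.slope.eventually
    ((isOpen_lt Y.continuous.abs (continuous_const.mul X.continuous)).mem_nhds hd)
  have h2 : ∀ᶠ t in 𝓝 (0 : ℝ), X (γ t) < η :=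
    (X.continuous.continuousAt.comp hγ.1.continuousAt).eventually
      (gt_mem_nhds (by simpa [hγ.2.1] using hη))
  filter_upwards [h1, h2.filter_mono nhdsWithin_le_nhds, self_mem_nhdsWithin] with t h3 h4 h5
  have h6 : (0 : ℝ) < t⁻¹ := inv_pos.2 h5
  refine ⟨h4, ?_⟩
  simp only [Pi.mul_apply, map_smul, smul_eq_mul, abs_mul, abs_of_pos h6] at h3
  nlinarith

theorem Lay.arc_good [Finite ι] {X Y : ℂ →L[ℝ] ℝ} {η : ℝ} (hη : 0 < η)
    (hXY : ∀ s, X s = 0 → Y s = 0 → s = 0) (h : Lay B Ω (Tri X Y η) e ℓ)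
    (hp : Pot B Φ Ω (Tri X Y η) u) (hu0 : u 0 = 0) (hΦ : ∀ i, AnalyticAt ℂ (Φ i) 0)
    (hΦ0 : ∀ i, Φ i 0 = 0) {γ : ℝ → ℂ} (hγ : RegArc γ) :
    ∀ᶠ t in 𝓝[>] (0 : ℝ), |Y (γ t)| ≤ η / 2 * X (γ t) → Good Φ Ω u e (γ t) := by
  by_cases hd : |Y (deriv γ 0)| < η * X (deriv γ 0)
  · obtain ⟨δ, h1, hδ⟩ := ((h.arc_in hp hu0 hΦ hΦ0 hγ.1 hγ.2.1 (hγ.mem_tri hη hd)).and
      self_mem_nhdsWithin).exists
    filter_upwards [Ioo_mem_nhdsGT hδ] with t ht _ j hj using h1 t ht j hj t ht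
  · have h1 : η / 2 * X (deriv γ 0) < |Y (deriv γ 0)| := by
      rw [not_lt] at hd
      rcases lt_trichotomy (X (deriv γ 0)) 0 with h2 | h2 | h2
      · nlinarith [abs_nonneg (Y (deriv γ 0))]
      · rw [h2, mul_zero, abs_pos]
        exact fun h3 => hγ.2.2 (hXY _ h2 h3)
      · nlinarith
    have h2 := hγ.slope.eventually
      ((isOpen_lt (continuous_const.mul X.continuous) Y.continuous.abs).mem_nhds h1)
    filter_upwards [h2, self_mem_nhdsWithin] with t h3 h5 h4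
    exfalso
    have h6 : (0 : ℝ) < t⁻¹ := inv_pos.2 h5
    simp only [Pi.mul_apply, map_smul, smul_eq_mul, abs_mul, abs_of_pos h6] at h3
    nlinarith

theorem Lay.between [Finite ι] (h : Lay B Ω S e ℓ) (hp : Pot B Φ Ω S u) {p : ℂ} {T : ℝ}
    (hT : 0 < T) (hpS : p ∈ S) (hpT : p + T • e ∈ S) (G1 : Good Φ Ω u e p)
    (G2 : Good Φ Ω u (-e) (p + T • e))
    (hZ : ∀ y ∈ Ioo 0 T, ∀ i j, i ≠ j → (Φ i (p + y • e)).re ≠ (Φ j (p + y • e)).re) :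
    ∀ y ∈ Ioo 0 T, ∃ j, p + y • e ∈ Ω j := by
  obtain ⟨j1, h1⟩ := h.exists_up hpS
  obtain ⟨j2, h2⟩ := h.neg.exists_up hpT
  have e1 : ∀ y : ℝ, p + T • e + y • (-e) = p + (T - y) • e := by
    intro y
    rw [sub_smul, smul_neg]
    ring
  have hj : j1 = j2 := by
    by_contra hne
    obtain ⟨a, ha1, ha⟩ := ((h.const_up hp hpS h1).and (Ioo_mem_nhdsGT (half_pos hT))).exists
    obtain ⟨b, hb1, hb⟩ := ((h.neg.const_up hp hpT h2).and (Ioo_mem_nhdsGT (half_pos hT))).exists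
    rw [e1] at hb1
    have h3 := h.above hp hpS h1 (T := T - b) (by linarith [hb.2])
      (seg_mem h.conv hpS hpT ⟨by linarith [hb.2], by linarith [hb.1]⟩)
    have h4 := h.neg.above hp hpT h2 (T := T - a) (by linarith [ha.2]) (by
      rw [e1]
      exact seg_mem h.conv hpS hpT ⟨by linarith [ha.1], by linarith [ha.2]⟩)
    rw [e1, sub_sub_cancel] at h4
    have h5 := G1 j1 h1
    have h6 := G2 j2 h2
    have hab : a ≤ T - b := by linarith [ha.2, hb.2]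
    have hI : ∀ y ∈ Icc a (T - b), y ∈ Ioo 0 T := fun y hy =>
      ⟨ha.1.trans_le hy.1, by linarith [hy.2, hb.1]⟩
    have hc : ContinuousOn (fun y : ℝ => (Φ j2 (p + y • e)).re - (Φ j1 (p + y • e)).re)
        (Icc a (T - b)) := fun y hy =>
      ((hp.hasDerivAt j2 p e (seg_mem h.conv hpS hpT (Ioo_subset_Icc_self (hI y hy)))).sub
        (hp.hasDerivAt j1 p e (seg_mem h.conv hpS hpT
          (Ioo_subset_Icc_self (hI y hy))))).continuousAt.continuousWithinAt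
    obtain ⟨y, hy, hy0⟩ := intermediate_value_Icc hab hc
      (show (0 : ℝ) ∈ _ from ⟨by linarith, by linarith⟩)
    exact hZ y (hI y hy) j1 j2 hne (sub_eq_zero.1 hy0).symm
  intro y hy
  have hyS := seg_mem h.conv hpS hpT (Ioo_subset_Icc_self hy)
  refine ⟨j1, h.sing _ hyS j1 fun k hk => h.inj (le_antisymm ?_ ?_)⟩
  · have e2 : p + y • e + (T - y) • e = p + T • e := by
      rw [add_assoc, ← add_smul, add_sub_cancel]
    exact h.mono _ hyS (T - y) (sub_pos.2 hy.2) (e2 ▸ hpT) k j1 hk (e2 ▸ hj ▸ h2.mem_closure)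
  · exact h.mono p hpS y hy.1 hyS j1 k h1.mem_closure hk

theorem exists_cut {Z : Set ℝ} {T : ℝ} (hT : 0 < T) (hZ : IsClosed (Icc 0 T ∩ Z)) (h0 : 0 ∉ Z) :
    ∃ a ∈ Ioc 0 T, (a ∈ Z ∨ a = T) ∧ ∀ y ∈ Ico 0 a, y ∉ Z := by
  have hK : IsCompact ((Icc 0 T ∩ Z) ∪ {T}) :=
    (isCompact_Icc.of_isClosed_subset hZ inter_subset_left).union isCompact_singleton
  obtain ⟨a, ha, hl⟩ := hK.exists_isLeast ⟨T, Or.inr rfl⟩
  have haT : a ≤ T := hl (Or.inr rfl)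
  refine ⟨a, ⟨?_, haT⟩, ?_, fun y hy hyZ => ?_⟩
  · rcases ha with ha | ha
    · exact lt_of_le_of_ne ha.1.1 fun h => h0 (h ▸ ha.2)
    · exact ha ▸ hT
  · exact ha.imp (fun h => h.2) id
  · exact absurd hy.2 (not_lt.2 (hl (Or.inl ⟨⟨hy.1, hy.2.le.trans haT⟩, hyZ⟩)))

theorem Lay.up_near [Finite ι] (h : Lay B Ω S e ℓ) (hp : Pot B Φ Ω S u) {s : ℂ} (hs : s ∈ S)
    {j : ι} (hj : Up Ω e s j) (hu : u s = (Φ j s).re) :
    ∀ᶠ s' in 𝓝 s, u s' = (Φ j s').re → Good Φ Ω u e s' → Up Ω e s' j := by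
  obtain ⟨y, ⟨⟨hy1, hy2⟩, hy3⟩, hy4⟩ := (((hj.and ((tendsto_up s e).eventually
    (h.isOpen.mem_nhds hs))).and (h.const_up hp hs hj)).and self_mem_nhdsWithin).exists
  have hy0 : (0 : ℝ) < y := hy4
  have hc : ContinuousAt (fun s' : ℂ => s' + y • e) s := by fun_prop
  filter_upwards [h.isOpen.mem_nhds hs, hc.eventually ((h.isOpenΩ j).mem_nhds hy1),
    hc.eventually (h.isOpen.mem_nhds hy2), hc.eventually (hp.loc j _ hy1 hy2)]
    with s' h1 h2 h3 h4 h5 h6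
  obtain ⟨k, hk⟩ := h.exists_up h1
  rcases (h.mono s' h1 y hy0 h3 k j hk.mem_closure (subset_closure h2)).eq_or_lt with h7 | h7
  · exact h.inj h7 ▸ hk
  · exfalso
    obtain ⟨a, ha1, ha⟩ := ((h.const_up hp h1 hk).and (Ioo_mem_nhdsGT hy0)).exists
    have haS := seg_mem h.conv h1 h3 (Ioo_subset_Icc_self ha)
    have h8 := h.incr hp h1 ha.1 haS h7
    have e1 : s' + y • e + (y - a) • (-e) = s' + a • e := by
      rw [sub_smul, smul_neg, smul_neg]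
      ring
    have h9 := h.neg.above hp h3 (up_of_mem h.isOpenΩ h2) (sub_pos.2 ha.2).le (e1 ▸ haS)
    rw [e1] at h9
    have h10 := h6 k hk
    linarith

theorem Lay.up_unique (h : Lay B Ω S e ℓ) {e' s : ℂ} {j k : ι} (hj : Up Ω e' s j)
    (hk : Up Ω e' s k) : j = k := by
  obtain ⟨y, h1, h2⟩ := (hj.and hk).exists
  exact h.disj j k _ h1 h2

/-- Layers of branches which are holomorphic at the origin, with potentials. -/
structure Hol (r : ℝ) (B Φ : ι → ℂ → ℂ) (Ω : ι → Set ℂ) : Prop where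
  pos : 0 < r
  reg : Reg r B Ω
  diff : ∀ i, DifferentiableOn ℂ (B i) (ball 0 r)
  ne : ∀ s ∈ ball (0 : ℂ) r, s ≠ 0 → ∀ i j, i ≠ j → B i s ≠ B j s
  der : ∀ i, ∀ s ∈ ball (0 : ℂ) r, HasDerivAt (Φ i) (B i s) s
  zero : ∀ i, Φ i 0 = 0
  pot : ∀ S, IsOpen S → Convex ℝ S → (∀ s ∈ S, s ∈ ball (0 : ℂ) r ∧ s ≠ 0) → ∃ u, Pot B Φ Ω S u

variable {r : ℝ}

theorem Hol.an (h : Hol r B Φ Ω) (i : ι) : AnalyticAt ℂ (Φ i) 0 :=
  DifferentiableOn.analyticAt (s := ball 0 r)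
    (fun s hs => (h.der i s hs).differentiableAt.differentiableWithinAt) (ball_mem_nhds 0 h.pos)

theorem Hol.sec [Finite ι] (h : Hol r B Φ Ω) {ω : ℂ} (hω : ω ≠ 0) :
    ∃ e X Y ℓ η u, Coord ω e X Y ∧ 0 < η ∧ Lay B Ω (Tri X Y η) e ℓ ∧ Pot B Φ Ω (Tri X Y η) u ∧
      u 0 = 0 := by
  obtain ⟨e, -, X, Y, hC, ℓ, hℓ, η, hη, hS, hord⟩ := sector h.pos B 0 h.diff h.ne hω isOpen_univ
    univ_nonempty
  obtain ⟨u, hu⟩ := h.pot _ (isOpen_tri X Y η) (convex_tri X Y η) hS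
  refine ⟨e, X, Y, ℓ, η, fun s => u s - u 0, hC, hη,
    h.reg.lay (isOpen_tri X Y η) (convex_tri X Y η) hS hℓ fun s hs i j hij => ?_,
    ⟨hu.cont.sub continuous_const, hu.der, fun i x hx hxS => ?_⟩, sub_self _⟩
  · simpa using hord e (mem_ball_self hη) s hs i j hij
  · filter_upwards [hu.loc i x hx hxS] with y hy
    linarith

theorem Hol.levels [Finite ι] (h : Hol r B Φ Ω) : ∃ Γ : Set (ℝ → ℂ), Γ.Finite ∧
    (∀ γ ∈ Γ, RegArc γ) ∧ ∀ δ : ℝ, 0 < δ → ∀ᶠ s in 𝓝[≠] (0 : ℂ),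
      (∃ i j, i ≠ j ∧ (Φ i s).re = (Φ j s).re) → ∃ γ ∈ Γ, ∃ t ∈ Ioo 0 δ, s = γ t := by
  have := fun p : {p : ι × ι // p.1 ≠ p.2} => H17.level (fun s => Φ p.1.1 s - Φ p.1.2 s)
    ((h.an _).sub (h.an _)) (by simp [h.zero]) (by
      intro h1
      obtain ⟨s, ⟨h2, h3⟩, h4⟩ := (((h1.eventually_nhds.and (ball_mem_nhds 0 h.pos)).filter_mono
        (nhdsWithin_le_nhds (s := {0}ᶜ))).and self_mem_nhdsWithin).exists
      have h5 := (h.der p.1.1 s h3).sub (h.der p.1.2 s h3)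
      have h6 := (hasDerivAt_const s (0 : ℂ)).congr_of_eventuallyEq h2
      exact h.ne s h3 h4 _ _ p.2 (sub_eq_zero.1 (h5.unique h6)))
  choose m γ h1 h2 using this
  refine ⟨⋃ p, range (γ p), finite_iUnion fun p => finite_range _, ?_, fun δ hδ => ?_⟩
  · intro c hc
    obtain ⟨p, l, rfl⟩ := mem_iUnion.1 hc
    exact h1 p l
  · filter_upwards [eventually_all.2 fun p => h2 p δ hδ] with s hs
    rintro ⟨i, j, hij, h3⟩
    obtain ⟨l, t, ht, h4⟩ := hs ⟨(i, j), hij⟩ (by simp [h3])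
    exact ⟨_, mem_iUnion.2 ⟨_, l, rfl⟩, t, ht, h4⟩

theorem regArc_ray {w : ℂ} (hw : w ≠ 0) : RegArc fun t : ℝ => t • w := by
  refine ⟨by fun_prop, by simp, ?_⟩
  have : HasDerivAt (fun t : ℝ => t • w) w 0 := by simpa using (hasDerivAt_id (0 : ℝ)).smul_const w
  rwa [this.deriv]

theorem Hol.coreA [Finite ι] (h : Hol r B Φ Ω) : ∀ᶠ s in 𝓝[≠] (0 : ℂ),
    (∀ i j, i ≠ j → (Φ i s).re ≠ (Φ j s).re) → ∃ i, s ∈ Ω i := by
  obtain ⟨Γ, hΓ, hΓr, hΓl⟩ := h.levels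
  refine sphere_eventually fun ω hω => ?_
  have hω0 : ω ≠ 0 := by
    rintro rfl
    simp at hω
  obtain ⟨e, X, Y, ℓ, η, u, hC, hη, hL, hp, hu0⟩ := h.sec hω0
  have hXY : ∀ s, X s = 0 → Y s = 0 → s = 0 := by
    intro s h1 h2
    rw [hC.decomp s, h1, h2]
    simp
  have hg : ∀ γ, RegArc γ → ∀ᶠ t in 𝓝[>] (0 : ℝ), |Y (γ t)| ≤ η / 2 * X (γ t) →
      Good Φ Ω u e (γ t) ∧ Good Φ Ω u (-e) (γ t) := by
    intro γ hγ
    filter_upwards [hL.arc_good hη hXY hp hu0 h.an h.zero hγ,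
      hL.neg.arc_good hη hXY hp hu0 h.an h.zero hγ] with t h1 h2 h3 using ⟨h1 h3, h2 h3⟩
  obtain ⟨δ, hδ, hb⟩ := (nhdsGT_basis (0 : ℝ)).eventually_iff.1
    ((eventually_all_finite hΓ).2 fun γ hγ => hg γ (hΓr γ hγ))
  obtain ⟨ε, hε, hb2⟩ := Metric.eventually_nhds_iff_ball.1 (eventually_nhdsWithin_iff.1 (hΓl δ hδ))
  have hw : ∀ c : ℝ, ω + c • e ≠ 0 := by
    intro c h1
    have := congrArg X h1
    rw [map_add, map_smul, hC.Xω, hC.Xe, smul_zero, add_zero, map_zero] at this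
    exact one_ne_zero this
  have hK : 0 < ‖ω‖ + η * ‖e‖ := by
    rw [hω]
    positivity
  obtain ⟨ε', hε', hb3⟩ := (nhdsGT_basis (0 : ℝ)).eventually_iff.1
    (((hg _ (regArc_ray (hw (η / 2)))).and (hg _ (regArc_ray (hw (-(η / 2)))))).and
      (Ioo_mem_nhdsGT (lt_min hη (div_pos hε hK))))
  have hmain : ∀ s, X s ∈ Ioo 0 ε' → |Y s| ≤ η / 2 * X s → s ∈ Tri X Y η ∧
      (((∃ i j, i ≠ j ∧ (Φ i s).re = (Φ j s).re) ∨ |Y s| = η / 2 * X s) →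
        Good Φ Ω u e s ∧ Good Φ Ω u (-e) s) := by
    intro s hs hY
    obtain ⟨⟨h1, h2⟩, h3⟩ := hb3 hs
    have h4 := h3.2.trans_le (min_le_left _ _)
    have h5 := h3.2.trans_le (min_le_right _ _)
    refine ⟨⟨h4, by nlinarith [hs.1]⟩, ?_⟩
    rintro (hZ | hY')
    · have h6 : s ∈ ball (0 : ℂ) ε := by
        rw [mem_ball_zero_iff, hC.decomp s]
        refine (norm_add_le _ _).trans_lt ?_
        rw [norm_smul, norm_smul, Real.norm_of_nonneg hs.1.le, Real.norm_eq_abs]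
        rw [lt_div_iff₀ hK] at h5
        have : |Y s| * ‖e‖ ≤ η * X s * ‖e‖ :=
          mul_le_mul_of_nonneg_right (by nlinarith [hs.1]) (norm_nonneg _)
        nlinarith
      have h7 : s ≠ 0 := by
        rintro rfl
        simpa using hs.1
      obtain ⟨γ, hγ, t, ht, rfl⟩ := hb2 s h6 h7 hZ
      exact hb ht γ hγ hY
    · rcases (abs_eq (by nlinarith [hs.1])).1 hY' with h6 | h6
      · have h7 : X s • (ω + (η / 2) • e) = s := by
          rw [smul_add, smul_smul, mul_comm, ← h6]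
          exact (hC.decomp s).symm
        simp only [h7] at h1
        exact h1 hY
      · have h7 : X s • (ω + (-(η / 2)) • e) = s := by
          rw [smul_add, smul_smul, mul_neg, mul_comm, ← h6]
          exact (hC.decomp s).symm
        simp only [h7] at h2
        exact h2 hY
  have hcut : ∀ s, X s ∈ Ioo 0 ε' → |Y s| < η / 2 * X s →
      (∀ i j, i ≠ j → (Φ i s).re ≠ (Φ j s).re) → ∀ c : ℝ, c = 1 ∨ c = -1 → ∃ a > (0 : ℝ),
        s + a • (c • e) ∈ Tri X Y η ∧ Good Φ Ω u e (s + a • (c • e)) ∧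
        Good Φ Ω u (-e) (s + a • (c • e)) ∧
        ∀ y ∈ Ico 0 a, ∀ i j, i ≠ j → (Φ i (s + y • (c • e))).re ≠ (Φ j (s + y • (c • e))).re := by
    intro s hs hY hZ c hc
    have hY' := abs_lt.1 hY
    have hX : ∀ y : ℝ, X (s + y • (c • e)) = X s := fun y => by
      rw [map_add, map_smul, map_smul, hC.Xe, smul_zero, smul_zero, add_zero]
    have hYy : ∀ y : ℝ, Y (s + y • (c • e)) = Y s + y * c := fun y => by
      rw [map_add, map_smul, map_smul, hC.Ye, smul_eq_mul, smul_eq_mul, mul_one]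
    have hT : 0 < η / 2 * X s - c * Y s := by
      rcases hc with rfl | rfl <;> linarith
    have hle : ∀ y ∈ Icc 0 (η / 2 * X s - c * Y s),
        |Y (s + y • (c • e))| ≤ η / 2 * X (s + y • (c • e)) := by
      intro y hy
      rw [hX, hYy, abs_le]
      rcases hc with rfl | rfl <;> constructor <;> linarith [hy.1, hy.2]
    obtain ⟨a, ha, ha1, ha2⟩ := exists_cut (Z := {y | ∃ i j, i ≠ j ∧
        (Φ i (s + y • (c • e))).re = (Φ j (s + y • (c • e))).re}) hT (by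
      have : ∀ p : {p : ι × ι // p.1 ≠ p.2}, IsClosed (Icc 0 (η / 2 * X s - c * Y s) ∩
          (fun y : ℝ => (Φ p.1.1 (s + y • (c • e))).re - (Φ p.1.2 (s + y • (c • e))).re) ⁻¹' {0}) :=
        fun p => ContinuousOn.preimage_isClosed_of_isClosed (fun y hy => by
          have h1 := (hmain _ (hX y ▸ hs) (hle y hy)).1
          exact ((hp.hasDerivAt _ s _ h1).sub
            (hp.hasDerivAt _ s _ h1)).continuousAt.continuousWithinAt)
          isClosed_Icc isClosed_singleton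
      convert isClosed_iUnion_of_finite this using 1
      ext y
      simp only [mem_inter_iff, mem_ofPred_eq, mem_iUnion, mem_preimage, mem_singleton_iff,
        sub_eq_zero]
      constructor
      · rintro ⟨h1, i, j, hij, h2⟩
        exact ⟨⟨(i, j), hij⟩, h1, h2⟩
      · rintro ⟨p, h1, h2⟩
        exact ⟨h1, _, _, p.2, h2⟩) (by
      rintro ⟨i, j, hij, h1⟩
      exact hZ i j hij (by simpa using h1))
    obtain ⟨h1, h2⟩ := hmain _ (hX a ▸ hs) (hle a (Ioc_subset_Icc_self ha))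
    have h3 := h2 (ha1.imp id (by
      rintro rfl
      rw [hX, hYy]
      rcases hc with rfl | rfl
      · rw [abs_of_pos] <;> linarith
      · rw [abs_of_neg] <;> linarith))
    exact ⟨a, ha.1, h1, h3.1, h3.2, fun y hy i j hij h4 => ha2 y hy ⟨i, j, hij, h4⟩⟩
  have hc1 : ContinuousAt (fun z : ℝ × ℂ => z.1 * X z.2) (0, ω) := by fun_prop
  have hc2 : ContinuousAt (fun z : ℝ × ℂ => η / 2 * X z.2 - |Y z.2|) (0, ω) := by fun_prop
  filter_upwards [hc1.eventually (gt_mem_nhds (by simpa using hε')),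
    hc2.eventually (lt_mem_nhds (a := 0) (by simpa [hC.Xω, hC.Yω] using hη))] with z h1 h2 h3 hZ
  have hX : X (z.1 • z.2) ∈ Ioo 0 ε' := by
    rw [map_smul, smul_eq_mul]
    refine ⟨mul_pos h3 ?_, h1⟩
    nlinarith [abs_nonneg (Y z.2)]
  have hY : |Y (z.1 • z.2)| < η / 2 * X (z.1 • z.2) := by
    rw [map_smul, map_smul, smul_eq_mul, smul_eq_mul, abs_mul, abs_of_pos h3]
    nlinarith
  set s := z.1 • z.2
  obtain ⟨a, ha, ha1, -, ha2, ha3⟩ := hcut s hX hY hZ 1 (Or.inl rfl)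
  obtain ⟨b, hb', hb1, hb2', -, hb3'⟩ := hcut s hX hY hZ (-1) (Or.inr rfl)
  have e1 : ∀ y : ℝ, s + b • ((-1 : ℝ) • e) + y • e = s + (y - b) • ((1 : ℝ) • e) := by
    intro y
    simp only [sub_smul, smul_neg, neg_smul, one_smul]
    ring
  have e2 : ∀ y : ℝ, s + b • ((-1 : ℝ) • e) + y • e = s + (b - y) • ((-1 : ℝ) • e) := by
    intro y
    simp only [sub_smul, smul_neg, neg_smul, one_smul]
    ring
  have := hL.between hp (p := s + b • ((-1 : ℝ) • e)) (T := a + b) (by linarith) hb1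
    (by rwa [e1, add_sub_cancel_right]) hb2' (by rwa [e1, add_sub_cancel_right]) (by
      intro y hy
      rcases le_total b y with h4 | h4
      · rw [e1]
        exact ha3 _ ⟨by linarith, by linarith [hy.2]⟩
      · rw [e2]
        exact hb3' _ ⟨by linarith, by linarith [hy.1]⟩) b ⟨hb', by linarith⟩
  simpa [e1] using this

theorem Hol.coreB [Finite ι] (h : Hol r B Φ Ω) {γ : ℝ → ℂ} (hγ : RegArc γ) :
    (∀ᶠ t in 𝓝[>] (0 : ℝ), ∃ i, γ t ∈ Ω i) ∨ ∀ᶠ t in 𝓝[>] (0 : ℝ), ∀ i, γ t ∉ Ω i := by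
  obtain ⟨e, X, Y, ℓ, η, u, hC, hη, hL, hp, hu0⟩ := h.sec hγ.2.2
  have hS := hγ.mem_tri (X := X) (Y := Y) hη (by simpa [hC.Xω, hC.Yω] using hη)
  have hc : ∀ᶠ t in 𝓝 (0 : ℝ), ContinuousAt γ t := by
    filter_upwards [hγ.1.eventually_analyticAt] with t ht using ht.continuousAt
  obtain ⟨ε, hε, hb⟩ := (nhdsGT_basis (0 : ℝ)).eventually_iff.1
    (hS.and (hc.filter_mono nhdsWithin_le_nhds))
  obtain ⟨δ, ⟨h1, h2⟩, hδ⟩ := (((hL.arc_in hp hu0 h.an h.zero hγ.1 hγ.2.1 hS).and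
    (hL.neg.arc_in hp hu0 h.an h.zero hγ.1 hγ.2.1 hS)).and (Ioo_mem_nhdsGT hε)).exists
  have hb' : ∀ t ∈ Ioo 0 δ, γ t ∈ Tri X Y η ∧ ContinuousAt γ t := fun t ht =>
    hb ⟨ht.1, ht.2.trans hδ.2⟩
  have hU : ∀ t ∈ Ioo 0 δ, (∃ i, γ t ∈ Ω i) → ∀ᶠ t' in 𝓝 t, ∃ i, γ t' ∈ Ω i := by
    rintro t ht ⟨i, hi⟩
    filter_upwards [(hb' t ht).2.eventually ((hL.isOpenΩ i).mem_nhds hi)] with t' ht' using ⟨i, ht'⟩
  have hV : ∀ t ∈ Ioo 0 δ, (∀ i, γ t ∉ Ω i) → ∀ᶠ t' in 𝓝 t, ∀ i, γ t' ∉ Ω i := by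
    intro t ht hn
    obtain ⟨h3, h4⟩ := hb' t ht
    obtain ⟨j, hj⟩ := hL.exists_up h3
    obtain ⟨k, hk⟩ := hL.neg.exists_up h3
    have hjk : j ≠ k := by
      rintro rfl
      exact hn j (hL.sing _ h3 j fun k hk' => hL.inj (le_antisymm (hL.le_up h3 hj hk')
        (neg_le_neg_iff.1 (hL.neg.le_up h3 hk hk'))))
    filter_upwards [h4.eventually (hL.up_near hp h3 hj (h1 t ht j hj t ht)),
      h4.eventually (hL.neg.up_near hp h3 hk (h2 t ht k hk t ht)), Ioo_mem_nhds ht.1 ht.2]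
      with t' h5 h6 ht' i hi
    have h7 := h5 (h1 t ht j hj t' ht') fun l hl => h1 t' ht' l hl t' ht'
    have h8 := h6 (h2 t ht k hk t' ht') fun l hl => h2 t' ht' l hl t' ht'
    exact hjk ((hL.up_unique h7 (up_of_mem hL.isOpenΩ hi)).trans
      (hL.up_unique (up_of_mem hL.isOpenΩ hi) h8))
  have := isPreconnected_Ioo.subset_or_subset (s := Ioo 0 δ)
    (u := interior {t | ∃ i, γ t ∈ Ω i}) (v := interior {t | ∀ i, γ t ∉ Ω i}) isOpen_interior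
    isOpen_interior (by
      rw [disjoint_left]
      intro t h3 h4
      obtain ⟨i, hi⟩ := interior_subset h3
      exact interior_subset h4 i hi) (by
      intro t ht
      by_cases h3 : ∃ i, γ t ∈ Ω i
      · exact Or.inl (mem_interior_iff_mem_nhds.2 (hU t ht h3))
      · exact Or.inr (mem_interior_iff_mem_nhds.2 (hV t ht (not_exists.1 h3))))
  refine this.imp (fun h3 => ?_) fun h3 => ?_
  · filter_upwards [Ioo_mem_nhdsGT hδ.1] with t ht using (h3.trans interior_subset) ht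
  · filter_upwards [Ioo_mem_nhdsGT hδ.1] with t ht using (h3.trans interior_subset) ht

theorem Hol.core [Finite ι] (h : Hol r B Φ Ω) : ∃ Γ : Set (ℝ → ℂ), Γ.Finite ∧
    (∀ γ ∈ Γ, RegArc γ ∧ ∀ᶠ t in 𝓝[>] (0 : ℝ), ∀ i, γ t ∉ Ω i) ∧
    ∀ δ : ℝ, 0 < δ → ∀ᶠ s in 𝓝[≠] (0 : ℂ),
      (∀ i, s ∉ Ω i) → ∃ γ ∈ Γ, ∃ t ∈ Ioo 0 δ, s = γ t := by
  obtain ⟨Γ, hΓ, hΓr, hΓl⟩ := h.levels
  refine ⟨{γ ∈ Γ | ∀ᶠ t in 𝓝[>] (0 : ℝ), ∀ i, γ t ∉ Ω i}, hΓ.subset (sep_subset _ _),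
    fun γ hγ => ⟨hΓr γ hγ.1, hγ.2⟩, fun δ hδ => ?_⟩
  have h1 : ∀ᶠ t in 𝓝[>] (0 : ℝ), ∀ γ ∈ Γ, (∀ i, γ t ∉ Ω i) →
      ∀ᶠ t in 𝓝[>] (0 : ℝ), ∀ i, γ t ∉ Ω i := by
    refine (eventually_all_finite hΓ).2 fun γ hγ => ?_
    rcases h.coreB (hΓr γ hγ) with h2 | h2
    · filter_upwards [h2] with t ⟨i, hi⟩ h3 using absurd hi (h3 i)
    · filter_upwards with t _ using h2
  obtain ⟨ε, hε, hb⟩ := (nhdsGT_basis (0 : ℝ)).eventually_iff.1 h1
  filter_upwards [hΓl _ (lt_min hδ hε), h.coreA] with s h2 h3 h4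
  obtain ⟨γ, hγ, t, ht, rfl⟩ := h2 (by
    by_contra h5
    obtain ⟨i, hi⟩ := h3 fun i j hij h6 => h5 ⟨i, j, hij, h6⟩
    exact h4 i hi)
  exact ⟨γ, ⟨hγ, hb ⟨ht.1, ht.2.trans_le (min_le_right _ _)⟩ γ hγ h4⟩, t,
    ⟨ht.1, ht.2.trans_le (min_le_left _ _)⟩, rfl⟩

end Pool.Agent.MP_46692b_an.H78
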