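import Pool.Agent.MP_46692b_an.H78.Arc

/-!
Layers ordered along a direction, and the behaviour of a continuous potential along segments.
-/

open Filter Topology Set Metric

namespace Pool.Agent.MP_46692b_an.H78

variable {ι : Type*}

/-- The regions where the individual branches are attained, near the origin. -/
structure Reg (r : ℝ) (B : ι → ℂ → ℂ) (Ω : ι → Set ℂ) : Prop where
  isOpen : ∀ i, IsOpen (Ω i)
  disj : ∀ i j, ∀ s ∈ Ω i, s ∈ Ω j → i = j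
  dense : ∀ s ∈ ball (0 : ℂ) r, s ≠ 0 → ∃ i, s ∈ closure (Ω i)
  sing : ∀ s ∈ ball (0 : ℂ) r, s ≠ 0 → ∀ i, (∀ j, s ∈ closure (Ω j) → j = i) → s ∈ Ω i
  mono : ∀ s₀ ∈ ball (0 : ℂ) r, s₀ ≠ 0 → ∀ e : ℂ,
    (∀ i j, i ≠ j → (e * (B j s₀ - B i s₀)).re ≠ 0) → ∃ η > 0, ∀ s ∈ ball s₀ η, ∀ t : ℝ, 0 < t →
      s + t • e ∈ ball s₀ η → ∀ i j, s ∈ closure (Ω i) → s + t • e ∈ closure (Ω j) →
        i = j ∨ 0 < (e * (B j s₀ - B i s₀)).re

/-- Layers ordered by `ℓ` along the direction `e` in the convex open set `S`. -/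
structure Lay (B : ι → ℂ → ℂ) (Ω : ι → Set ℂ) (S : Set ℂ) (e : ℂ) (ℓ : ι → ℝ) : Prop where
  isOpenΩ : ∀ i, IsOpen (Ω i)
  disj : ∀ i j, ∀ s ∈ Ω i, s ∈ Ω j → i = j
  dense : ∀ s ∈ S, ∃ i, s ∈ closure (Ω i)
  sing : ∀ s ∈ S, ∀ i, (∀ j, s ∈ closure (Ω j) → j = i) → s ∈ Ω i
  isOpen : IsOpen S
  conv : Convex ℝ S
  inj : Function.Injective ℓ
  ord : ∀ s ∈ S, ∀ i j, ℓ i < ℓ j → 0 < (e * (B j s - B i s)).re
  mono : ∀ s ∈ S, ∀ t : ℝ, 0 < t → s + t • e ∈ S → ∀ i j, s ∈ closure (Ω i) →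
    s + t • e ∈ closure (Ω j) → ℓ i ≤ ℓ j

theorem seg_mem {S : Set ℂ} (hS : Convex ℝ S) {s e : ℂ} {T : ℝ} (hs : s ∈ S) (hT : s + T • e ∈ S)
    {t : ℝ} (ht : t ∈ Icc 0 T) : s + t • e ∈ S := by
  rcases (ht.1.trans ht.2).eq_or_lt with h | h
  · have : t = 0 := le_antisymm (h ▸ ht.2) ht.1
    simpa [this] using hs
  · have := hS.add_smul_mem hs hT (t := t / T)
      ⟨div_nonneg ht.1 h.le, (div_le_one h).2 ht.2⟩
    rwa [smul_smul, div_mul_cancel₀ _ h.ne'] at this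

theorem Reg.lay {r : ℝ} {B : ι → ℂ → ℂ} {Ω : ι → Set ℂ} (h : Reg r B Ω) {S : Set ℂ} {e : ℂ}
    {ℓ : ι → ℝ} (hSo : IsOpen S) (hSc : Convex ℝ S) (hS : ∀ s ∈ S, s ∈ ball (0 : ℂ) r ∧ s ≠ 0)
    (hinj : Function.Injective ℓ)
    (hord : ∀ s ∈ S, ∀ i j, ℓ i < ℓ j → 0 < (e * (B j s - B i s)).re) : Lay B Ω S e ℓ := by
  refine ⟨h.isOpen, h.disj, fun s hs => h.dense s (hS s hs).1 (hS s hs).2,
    fun s hs => h.sing s (hS s hs).1 (hS s hs).2, hSo, hSc, hinj, hord, ?_⟩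
  intro s hs T hT hsT
  have hneg : ∀ x ∈ S, ∀ i j, ℓ j < ℓ i → (e * (B j x - B i x)).re < 0 := by
    intro x hx i j hij
    have := hord x hx j i hij
    rw [← neg_sub, mul_neg, Complex.neg_re]
    linarith
  have := chain_rel (R := fun a b => ∀ i j, s + a • e ∈ closure (Ω i) →
      s + b • e ∈ closure (Ω j) → ℓ i ≤ ℓ j) hT (by
    intro a ha b _ h1 h2 i j hi hj
    obtain ⟨k, hk⟩ := h.dense _ (hS _ (seg_mem hSc hs hsT ha)).1 (hS _ (seg_mem hSc hs hsT ha)).2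
    exact (h1 i k hi hk).trans (h2 k j hk hj)) (by
    intro t ht
    have hx := seg_mem hSc hs hsT ht
    obtain ⟨η, hη, hl⟩ := h.mono _ (hS _ hx).1 (hS _ hx).2 e (by
      intro i j hij
      rcases lt_or_gt_of_ne (hinj.ne hij) with h1 | h1
      · exact (hord _ hx i j h1).ne'
      · exact (hneg _ hx i j h1).ne)
    have hc : ContinuousAt (fun a : ℝ => s + a • e) t := by fun_prop
    obtain ⟨η', hη', hb⟩ := Metric.eventually_nhds_iff.1 (hc.eventually (ball_mem_nhds _ hη))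
    refine ⟨η', hη', fun a _ b _ ha hb' hab i j hi hj => ?_⟩
    have e1 : s + a • e + (b - a) • e = s + b • e := by
      rw [add_assoc, ← add_smul, add_sub_cancel]
    rcases hl _ (hb ha) (b - a) (sub_pos.2 hab) (e1 ▸ hb hb') i j hi (e1 ▸ hj) with h1 | h1
    · rw [h1]
    · by_contra h2
      exact absurd (hneg _ hx i j (not_le.1 h2)) (not_lt.2 h1.le))
  simpa using this

variable {B : ι → ℂ → ℂ} {Ω : ι → Set ℂ} {S : Set ℂ} {e : ℂ} {ℓ : ι → ℝ}

theorem Lay.neg (h : Lay B Ω S e ℓ) : Lay B Ω S (-e) (fun i => -ℓ i) := by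
  refine ⟨h.isOpenΩ, h.disj, h.dense, h.sing, h.isOpen, h.conv,
    fun i j hij => h.inj (neg_injective hij), fun s hs i j hij => ?_,
    fun s hs t ht hst i j hi hj => ?_⟩
  · have := h.ord s hs j i (neg_lt_neg_iff.1 hij)
    rwa [← neg_sub, mul_neg, ← neg_mul] at this
  · have e1 : s + t • (-e) + t • e = s := by simp
    exact neg_le_neg (h.mono _ hst t ht (e1.symm ▸ hs) j i hj (e1.symm ▸ hi))

/-- The layer `j` lies just above `s`. -/
def Up (Ω : ι → Set ℂ) (e s : ℂ) (j : ι) : Prop := ∀ᶠ y in 𝓝[>] (0 : ℝ), s + y • e ∈ Ω j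

theorem tendsto_up (s e : ℂ) : Tendsto (fun y : ℝ => s + y • e) (𝓝[>] 0) (𝓝 s) := by
  have : ContinuousAt (fun y : ℝ => s + y • e) 0 := by fun_prop
  have h := this.tendsto
  simp only [zero_smul, add_zero] at h
  exact h.mono_left nhdsWithin_le_nhds

theorem Up.mem_closure {s : ℂ} {j : ι} (h : Up Ω e s j) : s ∈ closure (Ω j) :=
  mem_closure_of_tendsto (tendsto_up s e) h

theorem up_of_mem (hΩ : ∀ i, IsOpen (Ω i)) {s : ℂ} {j : ι} (h : s ∈ Ω j) : Up Ω e s j :=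
  (tendsto_up s e).eventually ((hΩ j).mem_nhds h)

theorem Lay.exists_up [Finite ι] (h : Lay B Ω S e ℓ) {s : ℂ} (hs : s ∈ S) : ∃ j, Up Ω e s j := by
  obtain ⟨δ, hδ, hb⟩ := (nhdsGT_basis (0 : ℝ)).eventually_iff.1
    ((tendsto_up s e).eventually (h.isOpen.mem_nhds hs))
  set T : Set ι := {j | ∃ y ∈ Ioo 0 δ, s + y • e ∈ closure (Ω j)} with hT
  have hm : δ / 2 ∈ Ioo 0 δ := ⟨by linarith, by linarith⟩
  obtain ⟨k0, hk0⟩ := h.dense _ (hb hm)
  obtain ⟨j, ⟨y0, hy0, hj⟩, hmin⟩ := exists_min_image T ℓ T.toFinite ⟨k0, _, hm, hk0⟩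
  refine ⟨j, ?_⟩
  filter_upwards [Ioo_mem_nhdsGT hy0.1] with y hy
  have hyδ : y ∈ Ioo 0 δ := ⟨hy.1, hy.2.trans hy0.2⟩
  refine h.sing _ (hb hyδ) j fun k hk => h.inj (le_antisymm ?_ (hmin k ⟨y, hyδ, hk⟩))
  have e1 : s + y • e + (y0 - y) • e = s + y0 • e := by
    rw [add_assoc, ← add_smul, add_sub_cancel]
  exact h.mono _ (hb hyδ) (y0 - y) (sub_pos.2 hy.2) (e1 ▸ hb hy0) k j hk (e1 ▸ hj)

theorem Lay.le_up (h : Lay B Ω S e ℓ) {s : ℂ} (hs : s ∈ S) {j k : ι} (hj : Up Ω e s j)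
    (hk : s ∈ closure (Ω k)) : ℓ k ≤ ℓ j := by
  obtain ⟨y, ⟨hy1, hy2⟩, hy3⟩ := ((hj.and ((tendsto_up s e).eventually
    (h.isOpen.mem_nhds hs))).and self_mem_nhdsWithin).exists
  exact h.mono s hs y hy3 hy2 k j hk (subset_closure hy1)

/-- A continuous potential. -/
structure Pot (B Φ : ι → ℂ → ℂ) (Ω : ι → Set ℂ) (S : Set ℂ) (u : ℂ → ℝ) : Prop where
  cont : Continuous u
  der : ∀ i, ∀ s ∈ S, HasDerivAt (Φ i) (B i s) s
  loc : ∀ i, ∀ x ∈ Ω i, x ∈ S → ∀ᶠ y in 𝓝 x, u y - (Φ i y).re = u x - (Φ i x).re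

variable {Φ : ι → ℂ → ℂ} {u : ℂ → ℝ}

theorem Pot.contAt (hp : Pot B Φ Ω S u) (i : ι) {s : ℂ} (hs : s ∈ S) :
    ContinuousAt (fun y => (Φ i y).re) s :=
  Complex.continuous_re.continuousAt.comp (hp.der i s hs).continuousAt

theorem Pot.hasDerivAt (hp : Pot B Φ Ω S u) (i : ι) (s e : ℂ) {t : ℝ} (hs : s + t • e ∈ S) :
    HasDerivAt (fun y : ℝ => (Φ i (s + y • e)).re) (e * B i (s + t • e)).re t := by
  have h1 : HasDerivAt (fun y : ℝ => s + y • e) e t := by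
    simpa using ((hasDerivAt_id t).smul_const e).const_add s
  have h2 := ((hp.der i _ hs).hasFDerivAt.restrictScalars ℝ).comp_hasDerivAt t h1
  have h3 := Complex.reCLM.hasFDerivAt.comp_hasDerivAt t h2
  simpa [Function.comp_def] using h3

theorem Lay.incr (h : Lay B Ω S e ℓ) (hp : Pot B Φ Ω S u) {s : ℂ} (hs : s ∈ S) {T : ℝ}
    (hT : 0 < T) (hsT : s + T • e ∈ S) {i j : ι} (hij : ℓ i < ℓ j) :
    (Φ j s).re - (Φ i s).re < (Φ j (s + T • e)).re - (Φ i (s + T • e)).re := by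
  have hd : ∀ t ∈ Icc 0 T, HasDerivAt
      (fun y : ℝ => (Φ j (s + y • e)).re - (Φ i (s + y • e)).re)
      ((e * B j (s + t • e)).re - (e * B i (s + t • e)).re) t := fun t ht =>
    (hp.hasDerivAt j s e (seg_mem h.conv hs hsT ht)).sub
      (hp.hasDerivAt i s e (seg_mem h.conv hs hsT ht))
  have := strictMonoOn_of_deriv_pos (convex_Icc 0 T)
    (fun t ht => (hd t ht).continuousAt.continuousWithinAt) (by
      intro t ht
      have ht' := interior_subset ht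
      rw [(hd t ht').deriv, ← Complex.sub_re, ← mul_sub]
      exact h.ord _ (seg_mem h.conv hs hsT ht') i j hij)
    (left_mem_Icc.2 hT.le) (right_mem_Icc.2 hT.le) hT
  simpa using this

theorem Lay.const_up (h : Lay B Ω S e ℓ) (hp : Pot B Φ Ω S u) {s : ℂ} (hs : s ∈ S) {j : ι}
    (hj : Up Ω e s j) :
    ∀ᶠ y in 𝓝[>] (0 : ℝ), u (s + y • e) - (Φ j (s + y • e)).re = u s - (Φ j s).re := by
  obtain ⟨δ, hδ, hb⟩ := (nhdsGT_basis (0 : ℝ)).eventually_iff.1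
    (hj.and ((tendsto_up s e).eventually (h.isOpen.mem_nhds hs)))
  set φ : ℝ → ℝ := fun y => u (s + y • e) - (Φ j (s + y • e)).re with hφ
  have hl : ∀ y ∈ Ioo 0 δ, ∀ᶠ y' in 𝓝 y, φ y' = φ y := by
    intro y hy
    have hc : ContinuousAt (fun a : ℝ => s + a • e) y := by fun_prop
    exact hc.eventually (hp.loc j _ (hb hy).1 (hb hy).2)
  have hconst : ∀ a ∈ Ioo 0 δ, ∀ b ∈ Ioo 0 δ, a ≤ b → φ b = φ a := by
    intro a ha b hb' hab
    have hI : ∀ x ∈ Icc a b, x ∈ Ioo 0 δ := fun x hx => ⟨ha.1.trans_le hx.1, hx.2.trans_lt hb'.2⟩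
    refine constant_of_has_deriv_right_zero (fun x hx => ?_) (fun x hx => ?_) b
      (right_mem_Icc.2 hab)
    · exact (continuousAt_const.congr (EventuallyEq.symm (hl x (hI x hx)))).continuousWithinAt
    · exact ((hasDerivAt_const x (φ x)).congr_of_eventuallyEq
        (hl x (hI x (Ico_subset_Icc_self hx)))).hasDerivWithinAt
  filter_upwards [Ioo_mem_nhdsGT hδ] with y hy
  have h4 : Tendsto φ (𝓝[>] 0) (𝓝 (u s - (Φ j s).re)) :=
    (hp.cont.continuousAt.sub (hp.contAt j hs)).tendsto.comp (tendsto_up s e)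
  have h5 : Tendsto φ (𝓝[>] 0) (𝓝 (φ y)) := by
    refine tendsto_const_nhds.congr' ?_
    filter_upwards [Ioo_mem_nhdsGT hy.1] with a ha
    exact hconst a ⟨ha.1, ha.2.trans hy.2⟩ y hy ha.2.le
  exact tendsto_nhds_unique h5 h4

theorem Lay.above [Finite ι] (h : Lay B Ω S e ℓ) (hp : Pot B Φ Ω S u) {s : ℂ} (hs : s ∈ S) {j : ι}
    (hj : Up Ω e s j) {T : ℝ} (hT : 0 ≤ T) (hsT : s + T • e ∈ S) :
    u s - (Φ j s).re ≤ u (s + T • e) - (Φ j (s + T • e)).re := by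
  have := mono_of_right (f := fun y => u (s + y • e) - (Φ j (s + y • e)).re) hT (by
    intro y hy
    have hc : ContinuousAt (fun a : ℝ => s + a • e) y := by fun_prop
    exact (ContinuousAt.comp (f := fun a : ℝ => s + a • e) (hp.cont.continuousAt.sub
      (hp.contAt j (seg_mem h.conv hs hsT hy))) hc).continuousWithinAt) (by
    intro y hy
    have hx := seg_mem h.conv hs hsT (Ico_subset_Icc_self hy)
    obtain ⟨k, hk⟩ := h.exists_up hx
    have hjk : ℓ j ≤ ℓ k := by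
      rcases hy.1.eq_or_lt with h0 | h0
      · refine h.le_up hx hk ?_
        rw [← h0, zero_smul, add_zero]
        exact hj.mem_closure
      · exact h.mono s hs y h0 hx j k hj.mem_closure hk.mem_closure
    have ht : Tendsto (fun y' : ℝ => y' - y) (𝓝[>] y) (𝓝[>] 0) := by
      refine tendsto_nhdsWithin_iff.2 ⟨?_, ?_⟩
      · have : ContinuousAt (fun y' : ℝ => y' - y) y := by fun_prop
        have h1 := this.tendsto
        rw [sub_self] at h1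
        exact h1.mono_left nhdsWithin_le_nhds
      · filter_upwards [self_mem_nhdsWithin] with y' hy' using sub_pos.2 (mem_Ioi.1 hy')
    filter_upwards [ht.eventually (h.const_up hp hx hk), Ioo_mem_nhdsGT hy.2] with y' h1 hy'
    have e1 : s + y • e + (y' - y) • e = s + y' • e := by
      rw [add_assoc, ← add_smul, add_sub_cancel]
    rw [e1] at h1
    rcases hjk.eq_or_lt with h2 | h2
    · rw [h.inj h2]
      exact h1.ge
    · have hx' := seg_mem h.conv hs hsT ⟨hy.1.trans hy'.1.le, hy'.2.le⟩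
      have h3 := h.incr hp hx (sub_pos.2 hy'.1) (e1 ▸ hx') h2
      rw [e1] at h3
      linarith)
  simpa using this

theorem Lay.support [Finite ι] (h : Lay B Ω S e ℓ) (hp : Pot B Φ Ω S u) {s : ℂ} (hs : s ∈ S)
    {j : ι} (hj : Up Ω e s j) :
    ∀ᶠ s' in 𝓝 s, u s - (Φ j s).re ≤ u s' - (Φ j s').re := by
  obtain ⟨y, ⟨⟨hy1, hy2⟩, hy3⟩, hy4⟩ := (((hj.and ((tendsto_up s e).eventually
    (h.isOpen.mem_nhds hs))).and (h.const_up hp hs hj)).and self_mem_nhdsWithin).exists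
  have hc : ContinuousAt (fun s' : ℂ => s' + y • e) s := by fun_prop
  filter_upwards [h.isOpen.mem_nhds hs, hc.eventually ((h.isOpenΩ j).mem_nhds hy1),
    hc.eventually (h.isOpen.mem_nhds hy2), hc.eventually (hp.loc j _ hy1 hy2)] with s' h1 h2 h3 h4
  have e1 : s' + y • e + y • (-e) = s' := by simp
  have h5 := h.neg.above hp h3 (up_of_mem h.isOpenΩ h2) (le_of_lt hy4) (e1.symm ▸ h1)
  rw [e1] at h5
  linarith

end Pool.Agent.MP_46692b_an.H78
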