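import Pool.Agent.MP_46692b_an.H78.Poles
import Pool.Agent.MP_46692b_an.H66.Puiseux

/-!
The local and the global structure of the support.
-/

open MeasureTheory Filter Topology Set Metric Complex Polynomial

namespace Pool.Agent.MP_46692b_an.H78

open Pool.Agent.MP_46692b_an.H26

theorem Br.arcs {ι : Type*} [Finite ι] {μ : Measure ℂ} [IsFiniteMeasure μ] {q : ℂ} {N : ℕ} {r : ℝ}
    {B : ι → ℂ → ℂ} (h : Br μ q N r B) (hB : ∀ i, DifferentiableOn ℂ (B i) (ball 0 r)) :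
    ∃ 𝒜 : Set (Set ℂ), 𝒜.Finite ∧ (∀ A ∈ 𝒜, IsArc A ∧ A ⊆ μ.support) ∧
      ∀ᶠ z in 𝓝[≠] q, z ∈ μ.support → z ∈ ⋃₀ 𝒜 := by
  obtain ⟨Φ, hΦ⟩ := h.hol hB
  have h' := h.mono hΦ.pos (half_le_self h.pos.le)
  obtain ⟨Γ, hΓ, hΓr, hΓl⟩ := hΦ.core
  have h1 : ∀ γ ∈ Γ, ∀ᶠ δ in 𝓝[>] (0 : ℝ), IsArc ((fun t => q + γ t ^ N) '' Icc 0 δ) ∧
      (fun t => q + γ t ^ N) '' Icc 0 δ ⊆ μ.support := by
    intro γ hγ
    obtain ⟨hr, hn⟩ := hΓr γ hγ
    have h2 : ∀ᶠ t in 𝓝[>] (0 : ℝ), γ t ≠ 0 := by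
      filter_upwards [hr.slope.eventually_ne hr.2.2] with t ht h3
      simp [h3] at ht
    have h3 : ∀ᶠ t in 𝓝 (0 : ℝ), γ t ∈ ball (0 : ℂ) (r / 2) :=
      hr.1.continuousAt.eventually (isOpen_ball.mem_nhds (by simpa [hr.2.1] using hΦ.pos))
    have h4 : ∀ᶠ t in 𝓝[>] (0 : ℝ), q + γ t ^ N ∈ μ.support := by
      filter_upwards [h2, h3.filter_mono nhdsWithin_le_nhds, hn] with t h5 h6 h7
      by_contra h8
      obtain ⟨i, hi⟩ := h'.mem_om h6 h5 h8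
      exact h7 i hi
    have h5 : AnalyticAt ℝ (fun t => q + γ t ^ N) 0 := analyticAt_const.add (hr.1.pow N)
    have h6 : q + γ 0 ^ N ∈ μ.support :=
      μ.isClosed_support.mem_of_tendsto (h5.continuousAt.tendsto.mono_left nhdsWithin_le_nhds) h4
    obtain ⟨ε, hε, hb⟩ := (nhdsGT_basis (0 : ℝ)).eventually_iff.1 h4
    refine (H17.arcGerm _ h5 fun h7 => ?_).and ?_
    · obtain ⟨t, h8, h9⟩ := (h2.and (h7.filter_mono nhdsWithin_le_nhds)).exists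
      rw [hr.2.1, zero_pow h.hN.ne', add_right_inj] at h9
      exact pow_ne_zero _ h8 h9
    · filter_upwards [Ioo_mem_nhdsGT hε] with δ hδ
      rintro _ ⟨t, ht, rfl⟩
      rcases ht.1.eq_or_lt with h7 | h7
      · exact h7 ▸ h6
      · exact hb ⟨h7, ht.2.trans_lt hδ.2⟩
  obtain ⟨δ, h2, hδ⟩ := (((eventually_all_finite hΓ).2 h1).and self_mem_nhdsWithin).exists
  refine ⟨(fun γ => (fun t => q + γ t ^ N) '' Icc 0 δ) '' Γ, hΓ.image _, ?_, ?_⟩
  · rintro _ ⟨γ, hγ, rfl⟩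
    exact h2 γ hγ
  · obtain ⟨ε, hε, hb⟩ := Metric.eventually_nhds_iff_ball.1
      (eventually_nhdsWithin_iff.1 (hΓl δ hδ))
    filter_upwards [self_mem_nhdsWithin,
      mem_nhdsWithin_of_mem_nhds (ball_mem_nhds q (pow_pos hε N))] with z hz hzb hzs
    obtain ⟨s, hs⟩ := IsAlgClosed.exists_pow_nat_eq (z - q) h.hN
    have h3 : q + s ^ N = z := by rw [hs, add_sub_cancel]
    obtain ⟨γ, hγ, t, ht, rfl⟩ := hb s (by
      rw [mem_ball, dist_eq_norm, ← hs, norm_pow] at hzb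
      exact mem_ball_zero_iff.2 (lt_of_pow_lt_pow_left₀ N hε.le hzb)) (by
      rintro rfl
      rw [zero_pow h.hN.ne', add_zero] at h3
      exact hz h3.symm) fun i hi => hi.2.2.1 (h3 ▸ hzs)
    exact ⟨_, ⟨γ, hγ, rfl⟩, t, Ioo_subset_Icc_self ht, h3⟩

theorem support_null' (μ : Measure ℂ) [IsFiniteMeasure μ] (P : ℂ[X][X]) (hP : P ≠ 0)
    (h : ∀ᵐ z, P.evalEval z (cauchy μ z) = 0) : volume μ.support = 0 := by
  obtain ⟨F, hF, hloc⟩ := local_branches P hP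
  have h1 : (volume : Measure ℂ) (μ.support \ F) = 0 := by
    apply measure_null_of_locally_null
    rintro p ⟨-, hp⟩
    obtain ⟨U, s, A, hU, hpU, hA, hne, hroots⟩ := hloc p hp
    have h2 := support_null μ (cauchy_aestronglyMeasurable μ)
      (fun ψ hψ hc => cauchy_weak μ hψ hc) A s U hU hA hne (by
        filter_upwards [h] with z hz hzU
        exact hroots z hzU _ hz)
    refine ⟨μ.support ∩ U, ?_, h2⟩
    apply inter_mem
    · exact mem_of_superset self_mem_nhdsWithin sdiff_subset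
    · exact mem_nhdsWithin_of_mem_nhds (hU.mem_nhds hpU)
  exact measure_mono_null (subset_sdiff_union _ F) (measure_union_null h1 (hF.measure_zero _))

theorem root_off_support (μ : Measure ℂ) [IsFiniteMeasure μ] (P : ℂ[X][X])
    (h : ∀ᵐ z, P.evalEval z (cauchy μ z) = 0) {z : ℂ} (hz : z ∉ μ.support) :
    P.evalEval z (cauchy μ z) = 0 := by
  have hc : ContinuousAt (fun w => P.evalEval w (cauchy μ w)) z :=
    ContinuousAt.comp (f := fun w => (w, cauchy μ w)) (g := fun x : ℂ × ℂ => P.evalEval x.1 x.2)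
      (contDiff_evalEval P).continuous.continuousAt
      (continuousAt_id.prodMk (cauchy_continuousAt μ hz))
  have h1 : ∃ᶠ w in 𝓝 z, P.evalEval w (cauchy μ w) ∈ ({0} : Set ℂ) :=
    mem_closure_iff_frequently.1 (Measure.dense_of_ae h z)
  exact isClosed_singleton.mem_of_frequently_of_tendsto h1 hc

theorem cauchy_restrict (μ : Measure ℂ) [IsFiniteMeasure μ] (q : ℂ) {z : ℂ} (hz : z ∉ μ.support) :
    cauchy (μ.restrict {q}ᶜ) z = cauchy μ z - (μ.real {q} : ℂ) * (z - q)⁻¹ := by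
  obtain ⟨ε, hε, hb⟩ := Metric.isOpen_iff.1 μ.isOpen_compl_support z hz
  have hi : Integrable (fun ζ => (z - ζ)⁻¹) μ := by
    refine Integrable.of_bound (C := ε⁻¹)
      ((measurable_const.sub measurable_id).inv).aestronglyMeasurable ?_
    filter_upwards [μ.support_mem_ae] with ζ hζ
    have h1 : ζ ∉ ball z ε := fun h => hb h hζ
    rw [mem_ball, not_lt, dist_comm, dist_eq_norm] at h1
    rw [norm_inv]
    exact inv_anti₀ hε h1
  have := integral_add_compl (measurableSet_singleton q) hi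
  rw [integral_singleton, real_smul] at this
  unfold cauchy
  rw [← this, add_sub_cancel_left]

theorem local_arcs (μ : Measure ℂ) [IsFiniteMeasure μ] (P : ℂ[X][X]) (hP : P ≠ 0)
    (h : ∀ᵐ z, P.evalEval z (cauchy μ z) = 0) (q : ℂ) :
    ∃ 𝒜 : Set (Set ℂ), 𝒜.Finite ∧ (∀ A ∈ 𝒜, IsArc A ∧ A ⊆ μ.support) ∧
      ∀ᶠ z in 𝓝[≠] q, z ∈ μ.support → z ∈ ⋃₀ 𝒜 := by
  obtain ⟨N, M, k, r, b, hN, hr, hb, hne, hroot⟩ := H66.puiseux P hP q
  have hN0 : (N : ℂ) ≠ 0 := by exact_mod_cast hN.ne'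
  have h1 : (μ.restrict {q}ᶜ).support ⊆ μ.support := Measure.support_mono Measure.restrict_le_self
  have h2 : ∀ z, z ≠ q → z ∈ μ.support → z ∈ (μ.restrict {q}ᶜ).support := fun z hz hzs =>
    Measure.interior_inter_support ⟨by rwa [isOpen_compl_singleton.interior_eq], hzs⟩
  set c : Fin k → ℂ → ℂ := fun i s => N * s ^ N * b i s - N * (μ.real {q} : ℂ) * s ^ M with hc
  have hcd : ∀ i, DifferentiableOn ℂ (c i) (ball 0 r) := fun i =>
    (DifferentiableOn.mul (by fun_prop) (hb i)).sub (by fun_prop)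
  have hbr : Br (μ.restrict {q}ᶜ) q N r fun i s => c i s / s ^ (M + 1) := by
    refine ⟨hN, hr, fun i s hs h0 => ((hcd i).differentiableAt (isOpen_ball.mem_nhds hs)).div
      (by fun_prop) (pow_ne_zero _ h0), fun s hs h0 i j hij h3 => ?_, fun s hs h0 h3 => ?_,
      measure_mono_null h1 (support_null' μ P hP h)⟩
    · rw [div_left_inj' (pow_ne_zero _ h0), hc] at h3
      exact hne s hs h0 i j hij
        (mul_left_cancel₀ (mul_ne_zero hN0 (pow_ne_zero N h0)) (sub_left_inj.1 h3))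
    · have h4 : q + s ^ N ∉ μ.support := fun h4 =>
        h3 (h2 _ (by simpa using fun h5 => absurd h5 h0) h4)
      obtain ⟨i, hi⟩ := hroot s hs h0 _ (root_off_support μ P h h4)
      refine ⟨i, ?_⟩
      rw [cauchy_restrict μ q h4, hi, add_sub_cancel_left, hc]
      simp only
      rw [← pow_sub_one_mul hN.ne' s]
      field_simp
      ring
  obtain ⟨κ, _, r', B, hB, hBr⟩ := remove_poles (by simp) _ _ r c hcd hbr
  obtain ⟨𝒜, h3, h4, h5⟩ := hBr.arcs hB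
  refine ⟨𝒜, h3, fun A hA => ⟨(h4 A hA).1, (h4 A hA).2.trans h1⟩, ?_⟩
  filter_upwards [h5, self_mem_nhdsWithin] with z h6 h7 h8 using h6 (h2 z h7 h8)

theorem IsArc.isCompact {A : Set ℂ} (h : IsArc A) : IsCompact A := by
  obtain ⟨γ, a, b, ha, hb, h1, -, rfl⟩ := h
  exact isCompact_Icc.image_of_continuousOn (h1.continuousOn.mono (Icc_subset_Ioo ha hb))

theorem global_arcs (μ : Measure ℂ) [IsFiniteMeasure μ] (hK : IsCompact μ.support) (P : ℂ[X][X])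
    (hP : P ≠ 0) (h : ∀ᵐ z, P.evalEval z (cauchy μ z) = 0) :
    ∃ (𝒜 : Set (Set ℂ)) (F : Set ℂ), 𝒜.Finite ∧ (∀ A ∈ 𝒜, IsArc A) ∧ F.Finite ∧
      (∀ p ∈ F, ∀ᶠ z in 𝓝[≠] p, z ∉ μ.support) ∧ μ.support = ⋃₀ 𝒜 ∪ F := by
  choose 𝒜 h1 h2 h3 using local_arcs μ P hP h
  obtain ⟨t, ht, hcov⟩ := hK.elim_nhds_subcover
    (fun q => {z | z ∈ ({q}ᶜ : Set ℂ) → z ∈ μ.support → z ∈ ⋃₀ 𝒜 q})
    fun q _ => eventually_nhdsWithin_iff.1 (h3 q)
  have h4 : (⋃ q ∈ t, 𝒜 q).Finite := t.finite_toSet.biUnion fun q _ => h1 q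
  have h5 : ∀ A ∈ ⋃ q ∈ t, 𝒜 q, IsArc A ∧ A ⊆ μ.support := by
    intro A hA
    obtain ⟨q, -, hq⟩ := mem_iUnion₂.1 hA
    exact h2 q A hq
  have h6 : ∀ q ∈ t, ⋃₀ 𝒜 q ⊆ ⋃₀ ⋃ q ∈ t, 𝒜 q := fun q hq =>
    sUnion_subset_sUnion (subset_biUnion_of_mem (u := 𝒜) hq)
  refine ⟨⋃ q ∈ t, 𝒜 q, t \ ⋃₀ ⋃ q ∈ t, 𝒜 q, h4, fun A hA => (h5 A hA).1,
    t.finite_toSet.subset sdiff_subset, fun p hp => ?_, subset_antisymm (fun z hz => ?_) ?_⟩
  · have h7 := (h4.isCompact_sUnion fun A hA => (h5 A hA).1.isCompact).isClosed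
    filter_upwards [h3 p, mem_nhdsWithin_of_mem_nhds (h7.isOpen_compl.mem_nhds hp.2)]
      with z h8 h9 h10 using h9 (h6 p hp.1 (h8 h10))
  · obtain ⟨q, hq, h7⟩ := mem_iUnion₂.1 (hcov hz)
    by_cases h8 : z ∈ ⋃₀ ⋃ q ∈ t, 𝒜 q
    · exact Or.inl h8
    · by_cases h9 : z = q
      · exact Or.inr ⟨h9 ▸ hq, h8⟩
      · exact absurd (h6 q hq (h7 h9 hz)) h8
  · exact union_subset (sUnion_subset fun A hA => (h5 A hA).2) fun p hp => ht p hp.1

end Pool.Agent.MP_46692b_an.H78
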