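import Pool.Agent.MP_46692b_an.H78.Spec

/-!
Layers of branches are ordered along every direction of a cone that orders the branches.
-/

open MeasureTheory Filter Topology Set Metric Complex

namespace Pool.Agent.MP_46692b_an.H78

open Pool.Agent.MP_46692b_an.H26

theorem exists_of_ae {P : ℂ → Prop} (h : ∀ᵐ z, P z) {O : Set ℂ} (hO : IsOpen O)
    (hne : O.Nonempty) : ∃ z ∈ O, P z := by
  obtain ⟨z, hz, hzO⟩ := (Measure.dense_of_ae h).exists_mem_open hO hne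
  exact ⟨z, hzO, hz⟩

theorem aeNear_ae {P : ℂ → Prop} : ∀ᵐ z, AeNear P z → P z := by
  have : volume ({z | AeNear P z} ∩ {z | ¬ P z}) = 0 := by
    apply measure_null_of_locally_null
    rintro z ⟨⟨O, hO, hzO, hOae⟩, -⟩
    refine ⟨O ∩ {z | ¬ P z}, ?_, ?_⟩
    · apply inter_mem (mem_nhdsWithin_of_mem_nhds (hO.mem_nhds hzO))
      exact mem_of_superset self_mem_nhdsWithin inter_subset_right
    · rw [measure_eq_zero_iff_ae_notMem]
      filter_upwards [hOae] with w hw h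
      exact h.2 (hw h.1)
  rw [measure_eq_zero_iff_ae_notMem] at this
  filter_upwards [this] with w hw h1
  by_contra h2
  exact hw ⟨h1, h2⟩

theorem mono_cone (μ : Measure ℂ) [IsFiniteMeasure μ] {f : ℂ → ℂ}
    (hm : AEStronglyMeasurable f) (hf : WeakEq μ f) {ι : Type*} (A : ι → ℂ → ℂ) (ℓ : ι → ℝ)
    {V Γ : Set ℂ} (hVc : Convex ℝ V) (hΓ : IsOpen Γ)
    (hΓs : ∀ v ∈ Γ, ∀ t : ℝ, 0 < t → t • v ∈ Γ) {M : ℝ} (hM0 : 0 ≤ M)
    (hA : ∀ i, DifferentiableOn ℂ (A i) V) (hAM : ∀ i, ∀ z ∈ V, ‖A i z‖ ≤ M)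
    (hne : ∀ z ∈ V, ∀ i j, i ≠ j → A i z ≠ A j z)
    (hord : ∀ v ∈ Γ, ∀ w ∈ V, ∀ i j, ℓ i ≤ ℓ j → 0 ≤ (v * (A j w - A i w)).re) (s : Finset ι) :
    ∀ W : Set ℂ, IsOpen W → W ⊆ V → (∀ y ∈ W, ∀ y' ∈ V, y' - y ∈ Γ → y' ∈ W) →
      (∀ᵐ z, z ∈ W → ∃ i ∈ s, f z = A i z) → ∀ i ∈ s, ∀ j ∈ s, ∀ z ∈ W, ∀ z' ∈ V, z' - z ∈ Γ →
      AeNear (fun w => f w = A i w) z → AeNear (fun w => f w = A j w) z' → ℓ i ≤ ℓ j := by
  classical
  induction s using Finset.strongInduction with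
  | H s ih =>
  intro W hW hWV hup hae i hi j hj z hz z' hz' hzz hzi hzj
  obtain ⟨i0, hi0, hmin⟩ := s.exists_min_image ℓ ⟨i, hi⟩
  by_cases hii : i = i0
  · rw [hii]
    exact hmin j hj
  set g := W.indicator (fun z => f z - A i0 z) with hg
  have hgM : ∀ᵐ z, ‖g z‖ ≤ M + M := by
    filter_upwards [hae] with x hx
    by_cases hxW : x ∈ W
    · obtain ⟨k, -, hk⟩ := hx hxW
      rw [hg, indicator_of_mem hxW, hk]
      exact (norm_sub_le _ _).trans (add_le_add (hAM k x (hWV hxW)) (hAM i0 x (hWV hxW)))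
    · rw [hg, indicator_of_notMem hxW, norm_zero]
      positivity
  obtain ⟨hgm, hgw⟩ := weakPos_sub μ hm hf hW ((hA i0).mono hWV) hgM
  set W' := W ∩ {z | AeNear (fun z => g z ≠ 0) z} with hW'
  have hW'o : IsOpen W' := hW.inter (isOpen_aeNear _)
  have hup' : ∀ y ∈ W', ∀ y' ∈ V, y' - y ∈ Γ → y' ∈ W' := by
    rintro y ⟨hyW, O, hO, hyO, hOae⟩ y' hy' hyy
    refine ⟨hup y hyW y' hy' hyy, ?_⟩
    have hseg : segment ℝ y y' ⊆ W := by
      intro x hx
      have hxV : x ∈ V := hVc.segment_subset (hWV hyW) hy' hx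
      rw [segment_eq_image'] at hx
      obtain ⟨t, ht, rfl⟩ := hx
      rcases ht.1.eq_or_lt with h | h
      · simpa [← h] using hyW
      · refine hup y hyW _ hxV ?_
        simpa using hΓs _ hyy t h
    have hKc : IsCompact (segment ℝ y y') := by
      rw [segment_eq_image']
      exact isCompact_Icc.image (by fun_prop)
    obtain ⟨δ, hδ, hδW⟩ := hKc.exists_cthickening_subset_open hW hseg
    obtain ⟨Z, hZ, hmono⟩ := ae_mono hgm hgM hW hgw (hKc.cthickening (r := δ))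
      ((convex_segment y y').cthickening δ) hδW
    obtain ⟨ε, hε, hεΓ⟩ := Metric.isOpen_iff.1 hΓ _ hyy
    have hη : 0 < min δ (ε / 2) := lt_min hδ (half_pos hε)
    obtain ⟨y1, ⟨hy1O, hy1b⟩, hy1Z, hy1g⟩ := exists_of_ae (hZ.and hOae) (hO.inter isOpen_ball)
      ⟨y, hyO, mem_ball_self hη⟩
    refine ⟨ball y' (min δ (ε / 2)), isOpen_ball, mem_ball_self hη, ?_⟩
    filter_upwards [hZ] with w hw hwb
    have h1 : dist y1 y < min δ (ε / 2) := hy1b
    have h2 : dist w y' < min δ (ε / 2) := hwb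
    have h3 := min_le_left δ (ε / 2)
    have h4 := min_le_right δ (ε / 2)
    refine hmono y1 ⟨hy1Z, ?_⟩ w ⟨hw, ?_⟩ ?_ (hy1g hy1O)
    · exact mem_cthickening_of_dist_le y1 y δ _ (left_mem_segment ℝ y y') (by linarith)
    · exact mem_cthickening_of_dist_le w y' δ _ (right_mem_segment ℝ y y') (by linarith)
    · have hv : w - y1 ∈ Γ := by
        apply hεΓ
        rw [mem_ball, dist_eq_norm]
        have e : w - y1 - (y' - y) = (w - y') - (y1 - y) := by ring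
        rw [e]
        have := norm_sub_le (w - y') (y1 - y)
        rw [dist_eq_norm] at h1 h2
        linarith
      filter_upwards [hae] with x hx
      by_cases hxW : x ∈ W
      · obtain ⟨k, hk, hfk⟩ := hx hxW
        rw [indicator_of_mem hxW, hfk]
        exact hord _ hv x (hWV hxW) i0 k (hmin k hk)
      · simp [indicator_of_notMem hxW]
  have hzW' : z ∈ W' := by
    obtain ⟨O, hO, hzO, hOae⟩ := hzi
    refine ⟨hz, O ∩ W, hO.inter hW, ⟨hzO, hz⟩, ?_⟩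
    filter_upwards [hOae] with w hw hwO
    rw [hg, indicator_of_mem hwO.2, hw hwO.1]
    exact sub_ne_zero.2 (hne w (hWV hwO.2) i i0 hii)
  have hz'W' : z' ∈ W' := hup' z hzW' z' hz' hzz
  have hj0 : j ≠ i0 := by
    rintro rfl
    obtain ⟨O, hO, hzO, hOae⟩ := hzj
    obtain ⟨hz'W, O', hO', hzO', hOae'⟩ := hz'W'
    obtain ⟨w, ⟨⟨hw1, hw2⟩, hw3⟩, h1, h2⟩ := exists_of_ae (hOae.and hOae')
      ((hO.inter hO').inter hW) ⟨z', ⟨hzO, hzO'⟩, hz'W⟩
    apply h2 hw2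
    rw [hg, indicator_of_mem hw3, h1 hw1, sub_self]
  refine ih (s.erase i0) (Finset.erase_ssubset hi0) W' hW'o (inter_subset_left.trans hWV) hup' ?_
    i (Finset.mem_erase.2 ⟨hii, hi⟩) j (Finset.mem_erase.2 ⟨hj0, hj⟩) z hzW' z' hz' hzz hzi hzj
  filter_upwards [hae, aeNear_ae (P := fun z => g z ≠ 0)] with x hx hx' hxW'
  obtain ⟨k, hk, hfk⟩ := hx hxW'.1
  refine ⟨k, Finset.mem_erase.2 ⟨?_, hk⟩, hfk⟩
  rintro rfl
  apply hx' hxW'.2
  rw [hg, indicator_of_mem hxW'.1, hfk, sub_self]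

end Pool.Agent.MP_46692b_an.H78
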