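import Pool.Agent.MP_46692b_an.H78.Trans

/-!
At a point without atom the branches that are attained near the origin have no pole.
-/

open MeasureTheory Filter Topology Set Metric Complex

namespace Pool.Agent.MP_46692b_an.H78

variable {μ : Measure ℂ} {q : ℂ} {N : ℕ}

theorem re_pos_of_normSq_le {a β : ℂ} (h : normSq a ≤ normSq β) (hne : a ≠ β) :
    0 < (-(starRingEnd ℂ) β * (a - β)).re := by
  have h1 := normSq_pos.2 (sub_ne_zero.2 hne)
  simp only [normSq_apply, sub_re, sub_im, mul_re, neg_re, neg_im, conj_re, conj_im] at h h1 ⊢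
  nlinarith

theorem no_pole [IsFiniteMeasure μ] (hq : μ {q} = 0) {ι : Type*} [Finite ι] {r : ℝ} {M : ℕ}
    {b : ι → ℂ → ℂ} (hb : ∀ i, DifferentiableOn ℂ (b i) (ball 0 r))
    (h : Br μ q N r fun i s => b i s / s ^ (M + 1))
    (hcl : ∀ i, (0 : ℂ) ∈ closure (Om μ q N r (fun i s => b i s / s ^ (M + 1)) i)) (i : ι) :
    b i 0 = 0 := by
  obtain ⟨i₀, -, hmax⟩ := exists_max_image univ (fun j => normSq (b j 0)) (toFinite _)
    ⟨i, mem_univ i⟩
  by_contra hi
  set β := b i₀ 0 with hβ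
  have hβ0 : β ≠ 0 := by
    intro h0
    have := hmax i (mem_univ i)
    rw [h0, map_zero] at this
    exact hi (normSq_eq_zero.1 (le_antisymm this (normSq_nonneg _)))
  set Ω := Om μ q N r fun i s => b i s / s ^ (M + 1) with hΩ
  have hbc : ∀ j, ContinuousAt (b j) 0 := fun j =>
    ((hb j).differentiableAt (ball_mem_nhds 0 h.pos)).continuousAt
  have hne : ∀ s ∈ ball (0 : ℂ) r, s ≠ 0 → ∀ i j, i ≠ j → b i s ≠ b j s :=
    fun s hs h0 i j hij h1 => h.ne s hs h0 i j hij (by simp only [h1])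
  have key : ∀ᶠ s in 𝓝[≠] (0 : ℂ), s ∉ Ω i₀ := by
    refine sphere_eventually fun ω hω => ?_
    have hω0 : ω ≠ 0 := by
      rintro rfl
      simp at hω
    have hωM : ω ^ (M + 1) ≠ 0 := pow_ne_zero _ hω0
    obtain ⟨e, he, X, Y, hC, ℓ, hℓ, η, hη, hS, hord⟩ := sector h.pos b (M + 1) hb hne hω0
      (O := ⋂ j : {j // b j 0 ≠ β}, {e | 0 < (e * ((b j 0 - β) / ω ^ (M + 1))).re})
      (isOpen_iInter_of_finite fun j => isOpen_lt continuous_const (by fun_prop))
      ⟨-(starRingEnd ℂ) β * ω ^ (M + 1), mem_iInter.2 fun j => by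
        have := re_pos_of_normSq_le (hmax j (mem_univ _)) j.2
        rw [mem_ofPred_eq, mul_assoc, mul_div_cancel₀ _ hωM]
        exact this⟩
    have hlow : ∀ j, ℓ j ≤ ℓ i₀ → b j 0 = β := by
      intro j hj
      by_contra hjβ
      have hlt : ℓ j < ℓ i₀ := lt_of_le_of_ne hj fun h1 => hjβ (by rw [hℓ h1])
      have hc0 : ContinuousAt (fun ρ : ℝ => ρ • ω) 0 := by fun_prop
      have hc : ContinuousAt
          (fun ρ : ℝ => (e * ((b j (ρ • ω) - b i₀ (ρ • ω)) / ω ^ (M + 1))).re) 0 :=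
        continuous_re.continuousAt.comp (continuousAt_const.mul
          ((((hbc j).comp_of_eq hc0 (by simp)).sub
            ((hbc i₀).comp_of_eq hc0 (by simp))).div_const _))
      have h1 := hc.eventually (lt_mem_nhds (a := 0) (by
        simpa using mem_iInter.1 he ⟨j, hjβ⟩))
      obtain ⟨ρ, h2, hρ⟩ := ((h1.filter_mono nhdsWithin_le_nhds).and (Ioo_mem_nhdsGT hη)).exists
      have h3 := hord e (mem_ball_self hη) (ρ • ω) (by
        simp only [Tri, mem_ofPred_eq, map_smul, hC.Xω, hC.Yω, smul_eq_mul, mul_one, mul_zero,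
          abs_zero]
        exact ⟨hρ.2, mul_pos hη hρ.1⟩) j i₀ hlt
      have h4 : e * (b i₀ (ρ • ω) / (ρ • ω) ^ (M + 1) - b j (ρ • ω) / (ρ • ω) ^ (M + 1)) =
          ((-(ρ ^ (M + 1))⁻¹ : ℝ) : ℂ) * (e * ((b j (ρ • ω) - b i₀ (ρ • ω)) / ω ^ (M + 1))) := by
        have : (ρ : ℂ) ≠ 0 := by exact_mod_cast hρ.1.ne'
        rw [real_smul, mul_pow]
        push_cast
        field_simp
        ring
      rw [h4, re_ofReal_mul] at h3
      have h5 : 0 < (ρ ^ (M + 1))⁻¹ := inv_pos.2 (pow_pos hρ.1 _)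
      nlinarith
    set w₁ := ω - (η / 2) • e with hw₁
    have hX1 : X w₁ = 1 := by rw [hw₁, map_sub, map_smul, hC.Xω, hC.Xe, smul_zero, sub_zero]
    have hY1 : Y w₁ = -(η / 2) := by
      rw [hw₁, map_sub, map_smul, hC.Yω, hC.Ye, smul_eq_mul, mul_one, zero_sub]
    have hw0 : w₁ ≠ 0 := by
      intro h1
      rw [h1, map_zero] at hX1
      exact zero_ne_one hX1
    obtain ⟨σ, h1, h2, -, h4⟩ := exists_root_inv 0 hw0 h.hN
    simp only [zero_add] at h1 h2 h4
    have h5 : Tendsto σ (𝓝 (w₁ ^ N)) (𝓝 w₁) := by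
      have := h4.self_of_nhds.continuousAt.tendsto
      rwa [h1] at this
    set K := ‖w₁‖ + 1 with hK
    have hK0 : 0 < K := by positivity
    have htri : ∀ (ρ : ℝ) (w : ℂ), 0 < ρ → ρ * X w < η → |Y w| < η * X w → ρ • w ∈ Tri X Y η := by
      intro ρ w h6 h7 h8
      simp only [Tri, mem_ofPred_eq, map_smul, smul_eq_mul, abs_mul, abs_of_pos h6]
      exact ⟨h7, by nlinarith⟩
    have hev : ∀ᶠ x : (ℝ × ℂ) × ℂ in 𝓝 ((0, ω), w₁),
        ((x.1.1 * X x.1.2 < η ∧ 0 < η * X x.1.2 - |Y x.1.2|) ∧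
        (x.1.1 * X x.2 < η ∧ 0 < η * X x.2 - |Y x.2|)) ∧
        ((η / 2)⁻¹ • (x.1.2 - x.2) ∈ ball e η ∧ (‖x.1.1 • x.2‖ < 1 ∧ ‖x.2‖ < K)) ∧
        ∀ j, b j 0 = β → ‖β‖ / 2 < ‖b j (x.1.1 • x.2)‖ := by
      have c1 : ContinuousAt (fun x : (ℝ × ℂ) × ℂ => x.1.1 * X x.1.2) ((0, ω), w₁) := by fun_prop
      have c2 : ContinuousAt (fun x : (ℝ × ℂ) × ℂ => η * X x.1.2 - |Y x.1.2|) ((0, ω), w₁) := by
        fun_prop
      have c3 : ContinuousAt (fun x : (ℝ × ℂ) × ℂ => x.1.1 * X x.2) ((0, ω), w₁) := by fun_prop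
      have c4 : ContinuousAt (fun x : (ℝ × ℂ) × ℂ => η * X x.2 - |Y x.2|) ((0, ω), w₁) := by
        fun_prop
      have c5 : ContinuousAt (fun x : (ℝ × ℂ) × ℂ => (η / 2)⁻¹ • (x.1.2 - x.2)) ((0, ω), w₁) := by
        fun_prop
      have c6 : ContinuousAt (fun x : (ℝ × ℂ) × ℂ => x.1.1 • x.2) ((0, ω), w₁) := by fun_prop
      have c7 : ContinuousAt (fun x : (ℝ × ℂ) × ℂ => ‖x.2‖) ((0, ω), w₁) := by fun_prop
      refine (((c1.eventually (gt_mem_nhds (by simpa using hη))).and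
        (c2.eventually (lt_mem_nhds (by simpa [hC.Xω, hC.Yω] using hη)))).and
        ((c3.eventually (gt_mem_nhds (by simpa using hη))).and
        (c4.eventually (lt_mem_nhds ?_)))).and
        (((c5.eventually (isOpen_ball.mem_nhds ?_)).and
        ((c6.norm.eventually (gt_mem_nhds (by simp))).and
        (c7.eventually (gt_mem_nhds (by simp [hK]))))).and (eventually_all.2 fun j => ?_))
      · simp only [hX1, hY1, abs_neg, abs_of_pos (half_pos hη)]
        linarith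
      · simp only [hw₁, sub_sub_cancel, inv_smul_smul₀ (half_pos hη).ne']
        exact mem_ball_self hη
      · by_cases hj : b j 0 = β
        · filter_upwards [((hbc j).comp_of_eq c6 (by simp)).norm.eventually
            (lt_mem_nhds (a := ‖β‖ / 2) (by simpa [hj] using hβ0))] with x hx _ using hx
        · filter_upwards with x hx using absurd hx hj
    rw [nhds_prod_eq, eventually_prod_iff] at hev
    obtain ⟨pa, hpa, pb, hpb, hab⟩ := hev
    obtain ⟨δ, hδ, hδb⟩ := Metric.eventually_nhds_iff_ball.1 (h5.eventually hpb)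
    have hN0 : (0 : ℝ) < N := by exact_mod_cast h.hN
    have hc : 0 < ‖β‖ / 2 / (N * K ^ N) := by positivity
    have hpow : Tendsto (fun ρ : ℝ => ρ ^ N) (𝓝[>] 0) (𝓝[>] 0) := by
      refine tendsto_nhdsWithin_iff.2 ⟨?_, ?_⟩
      · have := (continuous_pow N (M := ℝ)).tendsto 0
        rw [zero_pow h.hN.ne'] at this
        exact this.mono_left nhdsWithin_le_nhds
      · filter_upwards [self_mem_nhdsWithin] with ρ hρ using pow_pos (mem_Ioi.1 hρ) N
    have hpole := eventually_nhdsWithin_iff.1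
      (hpow.eventually (H36.pole μ q (w₁ ^ N) δ _ hq hδ hc))
    filter_upwards [hpa, (continuousAt_fst (p := ((0 : ℝ), ω))).eventually hpole]
      with z hz hz' hρ hzΩ
    apply hz' hρ
    filter_upwards [h.ae] with y hy hyb
    have hρN : 0 < z.1 ^ N := pow_pos hρ N
    have hρC : ((z.1 ^ N : ℝ) : ℂ) ≠ 0 := by exact_mod_cast hρN.ne'
    set v := (y - q) / ((z.1 ^ N : ℝ) : ℂ) with hv
    have hvb : v ∈ ball (w₁ ^ N) δ := by
      rw [mem_ball, dist_eq_norm] at hyb ⊢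
      have h6 : v - w₁ ^ N = (y - (q + ((z.1 ^ N : ℝ) : ℂ) * w₁ ^ N)) / ((z.1 ^ N : ℝ) : ℂ) := by
        rw [hv]
        field_simp
        ring
      rwa [h6, norm_div, norm_real, Real.norm_of_nonneg hρN.le, div_lt_iff₀' hρN]
    obtain ⟨⟨⟨a1, a2⟩, a3, a4⟩, ⟨a5, a6, a7⟩, a8⟩ := hab hz (hδb v hvb)
    have hs1 := htri _ _ hρ a1 (by linarith)
    have hs2 := htri _ _ hρ a3 (by linarith)
    set s := z.1 • σ v with hs
    have hy' : q + s ^ N = y := by
      rw [hs, real_smul, mul_pow, h2, hv, ← ofReal_pow, mul_div_cancel₀ _ hρC, add_sub_cancel]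
    obtain ⟨j, hj⟩ := h.mem_om (hS s hs2).1 (hS s hs2).2 (by rwa [hy'])
    have hL := h.reg.lay (isOpen_tri X Y η) (convex_tri X Y η) hS hℓ (hord _ a5)
    have e1 : s + (z.1 * (η / 2)) • (η / 2)⁻¹ • (z.2 - σ v) = z.1 • z.2 := by
      rw [smul_smul, mul_inv_cancel_right₀ (half_pos hη).ne', smul_sub, hs, add_sub_cancel]
    have h6 := a8 j (hlow j (hL.mono s hs2 _ (mul_pos hρ (half_pos hη)) (e1 ▸ hs1) j i₀
      (subset_closure hj) (e1 ▸ subset_closure hzΩ)))
    have h7 : b j s = N * s ^ N * s ^ M * cauchy μ y := by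
      have h8 := hj.2.2.2
      rw [hy', eq_div_iff (pow_ne_zero _ (hS s hs2).2)] at h8
      rw [← h8]
      rw [← pow_sub_one_mul h.hN.ne' s]
      ring
    have h8 : ‖s‖ ^ N ≤ z.1 ^ N * K ^ N := by
      rw [← mul_pow, hs, norm_smul, Real.norm_of_nonneg hρ.le]
      gcongr
    have h9 : ‖s‖ ^ M ≤ 1 := pow_le_one₀ (norm_nonneg _) a6.le
    have h10 : ‖b j s‖ ≤ N * (z.1 ^ N * K ^ N) * 1 * ‖cauchy μ y‖ := by
      rw [h7, norm_mul, norm_mul, norm_mul, norm_pow, norm_pow, Complex.norm_natCast]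
      gcongr
    rw [div_div, div_le_iff₀ (by positivity)]
    nlinarith
  obtain ⟨s, hs, hs'⟩ := ((mem_closure_iff_frequently.1 (hcl i₀)).and_eventually
    (eventually_nhdsWithin_iff.1 key)).exists
  exact hs' hs.2.1 hs

theorem remove_poles [IsFiniteMeasure μ] (hq : μ {q} = 0) (M : ℕ) :
    ∀ (ι : Type) [Finite ι] (r : ℝ) (b : ι → ℂ → ℂ), (∀ i, DifferentiableOn ℂ (b i) (ball 0 r)) →
      (Br μ q N r fun i s => b i s / s ^ M) →
      ∃ (κ : Type) (_ : Finite κ) (r' : ℝ) (B : κ → ℂ → ℂ),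
        (∀ i, DifferentiableOn ℂ (B i) (ball 0 r')) ∧ Br μ q N r' B := by
  induction M with
  | zero => exact fun ι _ r b hb h => ⟨ι, inferInstance, r, b, hb, h.congr (by simp)⟩
  | succ M ih =>
    intro ι _ r b hb h
    obtain ⟨r', hr', h1, h2⟩ := h.restrict
    have hb' := fun i : {i // (0 : ℂ) ∈ closure (Om μ q N r (fun i s => b i s / s ^ (M + 1)) i)} =>
      (hb i).mono (ball_subset_ball hr')
    have h3 := no_pole hq hb' h1 h2
    refine ih _ r' (fun i => dslope (b i.1) 0) (fun i => ?_) (h1.congr fun i s hs => ?_)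
    · exact (differentiableOn_dslope (ball_mem_nhds 0 h1.pos)).2 (hb' i)
    · rw [dslope_of_ne _ hs, slope_def_field, h3 i, sub_zero, sub_zero, div_div, pow_succ']

end Pool.Agent.MP_46692b_an.H78
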