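import Pool.Agent.MP_46692b_an.H78.Lay

/-!
Thin triangles with vertex at the origin on which the branches are ordered.
-/

open Filter Topology Set Metric Complex

namespace Pool.Agent.MP_46692b_an.H78

/-- Real coordinates with respect to the basis `ω, e`. -/
structure Coord (ω e : ℂ) (X Y : ℂ →L[ℝ] ℝ) : Prop where
  Xω : X ω = 1
  Xe : X e = 0
  Yω : Y ω = 0
  Ye : Y e = 1
  decomp : ∀ s, s = X s • ω + Y s • e

theorem exists_coord {ω e : ℂ} (h : (e * ((starRingEnd ℂ) ω * I)).re ≠ 0) :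
    ∃ X Y, Coord ω e X Y := by
  have h1 : ω.re * e.im - ω.im * e.re ≠ 0 := by
    intro h2
    apply h
    simp only [mul_re, mul_im, conj_re, conj_im, I_re, I_im]
    linarith
  refine ⟨(ω.re * e.im - ω.im * e.re)⁻¹ • (e.im • reCLM - e.re • imCLM),
    (ω.re * e.im - ω.im * e.re)⁻¹ • (ω.re • imCLM - ω.im • reCLM), ?_, ?_, ?_, ?_, fun s => ?_⟩
  · simp only [ContinuousLinearMap.smul_apply, ContinuousLinearMap.sub_apply, reCLM_apply,
      imCLM_apply, smul_eq_mul]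
    field_simp
  · simp only [ContinuousLinearMap.smul_apply, ContinuousLinearMap.sub_apply, reCLM_apply,
      imCLM_apply, smul_eq_mul]
    ring
  · simp only [ContinuousLinearMap.smul_apply, ContinuousLinearMap.sub_apply, reCLM_apply,
      imCLM_apply, smul_eq_mul]
    ring
  · simp only [ContinuousLinearMap.smul_apply, ContinuousLinearMap.sub_apply, reCLM_apply,
      imCLM_apply, smul_eq_mul]
    field_simp
  · apply Complex.ext
    · simp only [ContinuousLinearMap.smul_apply, ContinuousLinearMap.sub_apply, reCLM_apply,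
        imCLM_apply, smul_eq_mul, add_re, smul_re]
      field_simp
      ring
    · simp only [ContinuousLinearMap.smul_apply, ContinuousLinearMap.sub_apply, reCLM_apply,
        imCLM_apply, smul_eq_mul, add_im, smul_im]
      field_simp
      ring

/-- A thin open triangle with vertex at the origin. -/
def Tri (X Y : ℂ →L[ℝ] ℝ) (η : ℝ) : Set ℂ := {s | X s < η ∧ |Y s| < η * X s}

theorem isOpen_tri (X Y : ℂ →L[ℝ] ℝ) (η : ℝ) : IsOpen (Tri X Y η) :=
  (isOpen_lt X.continuous continuous_const).inter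
    (isOpen_lt Y.continuous.abs (continuous_const.mul X.continuous))

theorem convex_tri (X Y : ℂ →L[ℝ] ℝ) (η : ℝ) : Convex ℝ (Tri X Y η) := by
  have h1 : Convex ℝ {s | X s < η} := convex_halfSpace_lt (X.toLinearMap.isLinear) η
  have h2 : Convex ℝ {s | (Y - η • X) s < 0} :=
    convex_halfSpace_lt ((Y - η • X).toLinearMap.isLinear) 0
  have h3 : Convex ℝ {s | (-Y - η • X) s < 0} :=
    convex_halfSpace_lt ((-Y - η • X).toLinearMap.isLinear) 0
  convert h1.inter (h2.inter h3) using 1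
  ext s
  simp only [Tri, mem_setOf_eq, mem_inter_iff, ContinuousLinearMap.sub_apply,
    ContinuousLinearMap.smul_apply, ContinuousLinearMap.neg_apply, smul_eq_mul, abs_lt]
  constructor
  · rintro ⟨a, b, c⟩
    exact ⟨a, by linarith, by linarith⟩
  · rintro ⟨a, b, c⟩
    exact ⟨a, by linarith, by linarith⟩

theorem tri_pos {X Y : ℂ →L[ℝ] ℝ} {η : ℝ} (hη : 0 < η) {s : ℂ} (hs : s ∈ Tri X Y η) : 0 < X s :=
  pos_of_mul_pos_left' hη ((abs_nonneg _).trans_lt hs.2)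
where pos_of_mul_pos_left' {a b : ℝ} (ha : 0 < a) (h : 0 < a * b) : 0 < b :=
  (mul_pos_iff_of_pos_left ha).1 h

theorem tri_mono {X Y : ℂ →L[ℝ] ℝ} {η η' : ℝ} (hη : 0 < η') (h : η' ≤ η) :
    Tri X Y η' ⊆ Tri X Y η := fun _ hs =>
  ⟨hs.1.trans_le h, hs.2.trans_le (mul_le_mul_of_nonneg_right h (tri_pos hη hs).le)⟩

theorem exists_generic {κ : Type*} [Finite κ] (c : κ → ℂ) (hc : ∀ k, c k ≠ 0) {O : Set ℂ}
    (hO : IsOpen O) (hne : O.Nonempty) : ∃ e ∈ O, ∀ k, (e * c k).re ≠ 0 := by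
  have hd : Dense (⋂ k, {e : ℂ | (e * c k).re ≠ 0}) := by
    apply dense_iInter_of_isOpen
    · intro k
      exact isOpen_ne_fun (by fun_prop) continuous_const
    · intro k e
      by_cases h : (e * c k).re = 0
      · have ht := tendsto_up e ((starRingEnd ℂ) (c k))
        refine mem_closure_of_tendsto ht ?_
        filter_upwards [self_mem_nhdsWithin] with y hy
        have hy' : (0 : ℝ) < y := hy
        have h2 : ((starRingEnd ℂ) (c k) * c k).re = normSq (c k) := by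
          rw [mul_comm, mul_conj, ofReal_re]
        simp only [mem_setOf_eq, add_mul, smul_mul_assoc, add_re, smul_re, h, h2, zero_add,
          smul_eq_mul]
        exact mul_ne_zero hy'.ne' (normSq_pos.2 (hc k)).ne'
      · exact subset_closure h
  obtain ⟨e, he, heO⟩ := hd.exists_mem_open hO hne
  exact ⟨e, heO, mem_iInter.1 he⟩

theorem sector {ι : Type*} [Finite ι] {r : ℝ} (hr : 0 < r) (b : ι → ℂ → ℂ) (M : ℕ)
    (hb : ∀ i, DifferentiableOn ℂ (b i) (ball 0 r))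
    (hne : ∀ s ∈ ball (0 : ℂ) r, s ≠ 0 → ∀ i j, i ≠ j → b i s ≠ b j s) {ω : ℂ} (hω : ω ≠ 0)
    {O : Set ℂ} (hO : IsOpen O) (hOne : O.Nonempty) :
    ∃ e ∈ O, ∃ X Y, Coord ω e X Y ∧ ∃ ℓ : ι → ℝ, Function.Injective ℓ ∧ ∃ η > 0,
      (∀ s ∈ Tri X Y η, s ∈ ball (0 : ℂ) r ∧ s ≠ 0) ∧ ∀ e' ∈ ball e η, ∀ s ∈ Tri X Y η, ∀ i j,
        ℓ i < ℓ j → 0 < (e' * (b j s / s ^ M - b i s / s ^ M)).re := by
  have han : ∀ i, AnalyticAt ℂ (b i) 0 := fun i => (hb i).analyticAt (ball_mem_nhds 0 hr)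
  have hfac : ∀ p : {p : ι × ι // p.1 ≠ p.2}, ∃ (n : ℕ) (k : ℂ → ℂ), AnalyticAt ℂ k 0 ∧ k 0 ≠ 0 ∧
      ∀ᶠ s in 𝓝 (0 : ℂ), b p.1.2 s - b p.1.1 s = (s - 0) ^ n • k s := by
    intro p
    refine ((han p.1.2).sub (han p.1.1)).exists_eventuallyEq_pow_smul_nonzero_iff.2 fun h => ?_
    obtain ⟨s, ⟨h1, h2⟩, h3⟩ := (((h.and (ball_mem_nhds 0 hr)).filter_mono
      (nhdsWithin_le_nhds (s := {0}ᶜ))).and self_mem_nhdsWithin).exists
    exact hne s h2 h3 _ _ p.2 (sub_eq_zero.1 h1).symm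
  choose n k hk hk0 hkeq using hfac
  obtain ⟨e, heO, he⟩ := exists_generic
    (fun p : Option {p : ι × ι // p.1 ≠ p.2} =>
      p.elim ((starRingEnd ℂ) ω * I) fun p => k p 0 * ω ^ n p / ω ^ M) (by
      rintro (_ | p)
      · exact mul_ne_zero (by simpa using hω) I_ne_zero
      · exact div_ne_zero (mul_ne_zero (hk0 p) (pow_ne_zero _ hω)) (pow_ne_zero _ hω)) hO hOne
  obtain ⟨X, Y, hC⟩ := exists_coord (he none)
  refine ⟨e, heO, X, Y, hC, ?_⟩
  have hc1 : ContinuousAt (fun z : ℂ × ℝ × ℝ => ω + z.2.2 • e) (e, 0, 0) := by fun_prop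
  have hc2 : ContinuousAt (fun z : ℂ × ℝ × ℝ => z.2.1 • (ω + z.2.2 • e)) (e, 0, 0) := by fun_prop
  have ht2 : Tendsto (fun z : ℂ × ℝ × ℝ => z.2.1 • (ω + z.2.2 • e)) (𝓝 (e, 0, 0)) (𝓝 0) := by
    simpa using hc2.tendsto
  have hev : ∀ᶠ z : ℂ × ℝ × ℝ in 𝓝 (e, 0, 0), (z.2.1 • (ω + z.2.2 • e) ∈ ball (0 : ℂ) r ∧
      ω + z.2.2 • e ≠ 0) ∧ ∀ p, (b p.1.2 (z.2.1 • (ω + z.2.2 • e)) -
        b p.1.1 (z.2.1 • (ω + z.2.2 • e)) = (z.2.1 • (ω + z.2.2 • e) - 0) ^ n p •
          k p (z.2.1 • (ω + z.2.2 • e))) ∧ 0 < (e * (k p 0 * ω ^ n p / ω ^ M)).re *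
        (z.1 * (k p (z.2.1 • (ω + z.2.2 • e)) * (ω + z.2.2 • e) ^ n p /
          (ω + z.2.2 • e) ^ M)).re := by
    refine ((ht2.eventually (ball_mem_nhds 0 hr)).and
      (hc1.eventually_ne (by simpa using hω))).and (eventually_all.2 fun p => ?_)
    refine (ht2.eventually (hkeq p)).and ?_
    have hc3 : ContinuousAt (fun z : ℂ × ℝ × ℝ => k p (z.2.1 • (ω + z.2.2 • e))) (e, 0, 0) :=
      (hk p).continuousAt.comp_of_eq hc2 (by simp)
    have hc4 : ContinuousAt (fun z : ℂ × ℝ × ℝ => (e * (k p 0 * ω ^ n p / ω ^ M)).re *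
        (z.1 * (k p (z.2.1 • (ω + z.2.2 • e)) * (ω + z.2.2 • e) ^ n p /
          (ω + z.2.2 • e) ^ M)).re) (e, 0, 0) :=
      continuousAt_const.mul (continuous_re.continuousAt.comp (continuousAt_fst.mul
        ((hc3.mul (hc1.pow _)).div (hc1.pow _) (pow_ne_zero _ (by simpa using hω)))))
    refine hc4.eventually (lt_mem_nhds ?_)
    have := he (some p)
    simp only [Option.elim] at this
    simpa using mul_self_pos.2 this
  obtain ⟨η, hη, hball⟩ := Metric.eventually_nhds_iff_ball.1 hev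
  have hpar : ∀ e' ∈ ball e η, ∀ s ∈ Tri X Y η, (e', X s, Y s / X s) ∈ ball ((e, 0, 0) : ℂ × ℝ × ℝ) η
      ∧ X s • (ω + (Y s / X s) • e) = s := by
    intro e' he' s hs
    have h0 := tri_pos hη hs
    constructor
    · rw [← ball_prod_same, ← ball_prod_same]
      refine ⟨he', ?_, ?_⟩
      · rw [mem_ball_zero_iff, Real.norm_of_nonneg h0.le]
        exact hs.1
      · rw [mem_ball_zero_iff, Real.norm_eq_abs, abs_div, abs_of_pos h0, div_lt_iff₀ h0]
        exact hs.2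
    · rw [smul_add, smul_smul, mul_div_cancel₀ _ h0.ne']
      exact (hC.decomp s).symm
  have hsign : ∀ e' ∈ ball e η, ∀ s ∈ Tri X Y η, ∀ p, 0 < (e * (k p 0 * ω ^ n p / ω ^ M)).re *
      (e' * (b p.1.2 s / s ^ M - b p.1.1 s / s ^ M)).re := by
    intro e' he' s hs p
    obtain ⟨h1, h2⟩ := hpar e' he' s hs
    obtain ⟨⟨-, h3⟩, h4⟩ := hball _ h1
    obtain ⟨h5, h6⟩ := h4 p
    simp only [h2] at h3 h5 h6
    have h0 := tri_pos hη hs
    set w := ω + (Y s / X s) • e with hw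
    have h7 : e' * (b p.1.2 s / s ^ M - b p.1.1 s / s ^ M) =
        ((X s ^ n p / X s ^ M : ℝ) : ℂ) * (e' * (k p s * w ^ n p / w ^ M)) := by
      rw [← sub_div, h5, sub_zero, smul_eq_mul]
      have h8 : s = (X s : ℂ) * w := by rw [← real_smul, h2]
      have h9 : (X s : ℂ) ≠ 0 := by exact_mod_cast h0.ne'
      have h10 : s ^ n p = (X s : ℂ) ^ n p * w ^ n p := by rw [← mul_pow, ← h8]
      have h11 : s ^ M = (X s : ℂ) ^ M * w ^ M := by rw [← mul_pow, ← h8]
      rw [h10, h11]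
      push_cast
      field_simp
    rw [h7, re_ofReal_mul, mul_left_comm]
    exact mul_pos (by positivity) h6
  have hs0 : (η / 2) • ω ∈ Tri X Y η := by
    simp only [Tri, mem_setOf_eq, map_smul, hC.Xω, hC.Yω, smul_eq_mul, mul_one, mul_zero, abs_zero]
    exact ⟨by linarith, by positivity⟩
  set s0 := (η / 2) • ω with hs0def
  have hℓ : ∀ i j, (e * (b j s0 / s0 ^ M)).re - (e * (b i s0 / s0 ^ M)).re =
      (e * (b j s0 / s0 ^ M - b i s0 / s0 ^ M)).re := by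
    intro i j
    rw [mul_sub, sub_re]
  refine ⟨fun i => (e * (b i s0 / s0 ^ M)).re, fun i j hij => ?_, η, hη, fun s hs => ?_,
    fun e' he' s hs i j hij => ?_⟩
  · by_contra h
    have h1 := hsign e (mem_ball_self hη) s0 hs0 ⟨(i, j), h⟩
    have h2 := hℓ i j
    simp only at hij h1
    rw [hij, sub_self] at h2
    rw [← h2, mul_zero] at h1
    exact lt_irrefl _ h1
  · obtain ⟨h1, h2⟩ := hpar e (mem_ball_self hη) s hs
    have h3 := (hball _ h1).1.1
    simp only [h2] at h3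
    refine ⟨h3, ?_⟩
    rintro rfl
    simpa using tri_pos hη hs
  · have hij' : i ≠ j := by
      rintro rfl
      exact lt_irrefl _ hij
    have h1 := hsign e (mem_ball_self hη) s0 hs0 ⟨(i, j), hij'⟩
    have h2 := hsign e' he' s hs ⟨(i, j), hij'⟩
    have h3 := hℓ i j
    simp only at hij h1 h2
    have h4 : 0 < (e * (b j s0 / s0 ^ M - b i s0 / s0 ^ M)).re := by linarith
    exact (mul_pos_iff_of_pos_left ((mul_pos_iff_of_pos_right h4).1 h1)).1 h2

theorem sphere_eventually {Q : ℂ → Prop}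
    (h : ∀ ω : ℂ, ‖ω‖ = 1 → ∀ᶠ z : ℝ × ℂ in 𝓝 (0, ω), 0 < z.1 → Q (z.1 • z.2)) :
    ∀ᶠ s in 𝓝[≠] (0 : ℂ), Q s := by
  have h1 := (isCompact_sphere (0 : ℂ) 1).eventually_forall_of_forall_eventually
    (x₀ := (0 : ℝ)) (P := fun ρ w => 0 < ρ → Q (ρ • w))
    (fun ω hω => h ω (by simpa using hω))
  have h2 : Tendsto (fun s : ℂ => ‖s‖) (𝓝[≠] 0) (𝓝 0) := by
    have := (continuous_norm (E := ℂ)).tendsto 0
    rw [norm_zero] at this
    exact this.mono_left nhdsWithin_le_nhds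
  filter_upwards [h2.eventually h1, self_mem_nhdsWithin] with s hs hs0
  have h3 : 0 < ‖s‖ := norm_pos_iff.2 hs0
  have := hs (‖s‖⁻¹ • s) (by simp [norm_smul, h3.ne']) h3
  rwa [smul_smul, mul_inv_cancel₀ h3.ne', one_smul] at this

end Pool.Agent.MP_46692b_an.H78
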