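import Pool.Agent.MP_46692b_an.H26.Cauchy
import Pool.Agent.MP_46692b_an.H26.Induct
import Pool.Agent.MP_46692b_an.H26.Alg

/-!
Statements of the independent parts of the proof that the support of a measure with algebraic
Cauchy transform is a finite union of analytic arcs and points.
-/

open MeasureTheory Filter Topology Set Metric Polynomial

namespace Pool.Agent.MP_46692b_an.H78

/-- A compact analytic arc in the plane. -/
def IsArc (A : Set ℂ) : Prop :=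
  ∃ (γ : ℝ → ℂ) (a b : ℝ), a < 0 ∧ 1 < b ∧ AnalyticOnNhd ℝ γ (Ioo a b) ∧ InjOn γ (Ioo a b) ∧
    A = γ '' Icc 0 1

/-- The Cauchy transform. -/
noncomputable def cauchy (μ : Measure ℂ) (z : ℂ) : ℂ := ∫ ζ, (z - ζ)⁻¹ ∂μ

/-- Convergent Puiseux expansions of all roots near an arbitrary point `q`. -/
def PuiseuxStmt : Prop :=
  ∀ P : ℂ[X][X], P ≠ 0 → ∀ q : ℂ, ∃ (N M k : ℕ) (r : ℝ) (b : Fin k → ℂ → ℂ),
    0 < N ∧ 0 < r ∧ (∀ i, DifferentiableOn ℂ (b i) (ball 0 r)) ∧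
    (∀ s ∈ ball (0 : ℂ) r, s ≠ 0 → ∀ i j, i ≠ j → b i s ≠ b j s) ∧
    ∀ s ∈ ball (0 : ℂ) r, s ≠ 0 → ∀ w, P.evalEval (q + s ^ N) w = 0 → ∃ i, w = b i s / s ^ M

/-- A short initial half of a nonconstant analytic germ is a compact analytic arc. -/
def ArcGermStmt : Prop :=
  ∀ c : ℝ → ℂ, AnalyticAt ℝ c 0 → ¬ (∀ᶠ t in 𝓝 (0 : ℝ), c t = c 0) →
    ∀ᶠ δ in 𝓝[>] (0 : ℝ), IsArc (c '' Icc 0 δ)

/-- The zero set of the real part of a holomorphic germ lies on finitely many regular arcs. -/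
def LevelStmt : Prop :=
  ∀ Ψ : ℂ → ℂ, AnalyticAt ℂ Ψ 0 → Ψ 0 = 0 → ¬ (∀ᶠ s in 𝓝 (0 : ℂ), Ψ s = 0) →
    ∃ (m : ℕ) (γ : Fin m → ℝ → ℂ),
      (∀ l, AnalyticAt ℝ (γ l) 0 ∧ γ l 0 = 0 ∧ deriv (γ l) 0 ≠ 0) ∧
      ∀ δ : ℝ, 0 < δ → ∀ᶠ s in 𝓝[≠] (0 : ℂ), (Ψ s).re = 0 → ∃ l, ∃ t ∈ Ioo 0 δ, s = γ l t

/-- Near a point without atom the Cauchy transform is not of size `1 / ρ` on a disc of
size `ρ`. -/
def PoleStmt : Prop :=
  ∀ (μ : Measure ℂ) [IsFiniteMeasure μ] (q w₀ : ℂ) (δ c : ℝ), μ {q} = 0 → 0 < δ → 0 < c →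
    ∀ᶠ ρ : ℝ in 𝓝[>] (0 : ℝ),
      ¬ ∀ᵐ z, z ∈ ball (q + (ρ : ℂ) * w₀) (ρ * δ) → c / ρ ≤ ‖cauchy μ z‖

/-- A continuous potential of the pulled back Cauchy transform on a convex open set. -/
def PotStmt : Prop :=
  ∀ (μ : Measure ℂ) [IsFiniteMeasure μ] (p : ℂ → ℂ) (S : Set ℂ) (M : ℝ),
    Differentiable ℂ p → IsOpen S → Convex ℝ S →
    (∀ x ∈ S, ∃ W ∈ 𝓝 (p x), ∀ᶠ y in 𝓝 x, ∀ᵐ z, z ∈ W → ‖deriv p y‖ * ‖cauchy μ z‖ ≤ M) →
    ∃ u : ℂ → ℝ, Continuous u ∧ ∀ x ∈ S, ∀ Φ : ℂ → ℂ, p x ∉ μ.support →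
      (∀ᶠ y in 𝓝 x, HasDerivAt Φ (deriv p y * cauchy μ (p y)) y) →
      ∀ᶠ y in 𝓝 x, u y - (Φ y).re = u x - (Φ x).re

theorem cauchy_continuousAt (μ : Measure ℂ) [IsFiniteMeasure μ] {z : ℂ} (hz : z ∉ μ.support) :
    ContinuousAt (cauchy μ) z := by
  obtain ⟨ε, hε, hb⟩ := Metric.isOpen_iff.1 μ.isClosed_support.isOpen_compl z hz
  have hae : ∀ᵐ ζ ∂μ, ζ ∉ ball z ε := by
    filter_upwards [μ.support_mem_ae] with ζ hζ h using hb h hζ
  apply continuousAt_of_dominated (bound := fun _ => 2 / ε)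
  · filter_upwards with w
    exact ((measurable_const.sub measurable_id).inv).aestronglyMeasurable
  · filter_upwards [ball_mem_nhds z (half_pos hε)] with w hw
    filter_upwards [hae] with ζ hζ
    rw [mem_ball, not_lt] at hζ
    rw [mem_ball] at hw
    have h1 : ε / 2 ≤ ‖w - ζ‖ := by
      have := dist_triangle ζ w z
      rw [← dist_eq_norm, dist_comm]
      linarith
    rw [norm_inv, ← inv_div]
    exact inv_anti₀ (half_pos hε) h1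
  · exact integrable_const _
  · filter_upwards [hae] with ζ hζ
    refine (continuousAt_id.sub continuousAt_const).inv₀ ?_
    intro h
    apply hζ
    have : z = ζ := sub_eq_zero.1 h
    rw [← this]
    exact mem_ball_self hε

end Pool.Agent.MP_46692b_an.H78
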