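import Pool.Agent.MP_46692b_an.H78.Core
import Pool.Agent.MP_46692b_an.H78.Mono
import Pool.Agent.MP_46692b_an.H36.PotPole

/-!
Pulling the Cauchy transform back along `s ↦ q + s ^ N`.
-/

open MeasureTheory Filter Topology Set Metric Complex

namespace Pool.Agent.MP_46692b_an.H78

open Pool.Agent.MP_46692b_an.H26

theorem exists_root_inv (q : ℂ) {s₀ : ℂ} (hs : s₀ ≠ 0) {N : ℕ} (hN : 0 < N) :
    ∃ σ : ℂ → ℂ, σ (q + s₀ ^ N) = s₀ ∧ (∀ z, q + σ z ^ N = z) ∧
      (∀ᶠ s in 𝓝 s₀, σ (q + s ^ N) = s) ∧ ∀ᶠ z in 𝓝 (q + s₀ ^ N), DifferentiableAt ℂ σ z := by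
  have h0 : s₀ ^ N ≠ 0 := pow_ne_zero _ hs
  have h1 : ∀ᶠ s in 𝓝 s₀, s₀ * ((q + s ^ N - q) / s₀ ^ N) ^ ((N : ℂ)⁻¹) = s := by
    have hc : ContinuousAt (fun s : ℂ => arg (s / s₀)) s₀ :=
      ContinuousAt.comp (f := fun s : ℂ => s / s₀)
        (continuousAt_arg (by simp [div_self hs])) (by fun_prop)
    have hp : 0 < Real.pi / N := div_pos Real.pi_pos (by exact_mod_cast hN)
    filter_upwards [hc.eventually (Ioo_mem_nhds (a := -(Real.pi / N)) (b := Real.pi / N)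
      (by simpa [div_self hs] using hp) (by simpa [div_self hs] using hp))] with s hs'
    rw [add_sub_cancel_left, ← div_pow, pow_cpow_nat_inv hN.ne' hs'.1 hs'.2.le,
      mul_div_cancel₀ _ hs]
  refine ⟨fun z => s₀ * ((z - q) / s₀ ^ N) ^ ((N : ℂ)⁻¹), h1.self_of_nhds, fun z => ?_, h1, ?_⟩
  · simp only
    rw [mul_pow, cpow_nat_inv_pow _ hN.ne', mul_div_cancel₀ _ h0, add_sub_cancel]
  · have hc : ContinuousAt (fun z : ℂ => (z - q) / s₀ ^ N) (q + s₀ ^ N) := by fun_prop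
    filter_upwards [hc.eventually (isOpen_slitPlane.mem_nhds (by simp [div_self h0]))] with z hz
    exact (DifferentiableAt.cpow (f := fun z : ℂ => (z - q) / s₀ ^ N) (by fun_prop)
      (differentiableAt_const _) hz).const_mul _

variable {ι : Type*}

/-- Branches of the pulled back Cauchy transform on a punctured disc. -/
structure Br (μ : Measure ℂ) (q : ℂ) (N : ℕ) (r : ℝ) (B : ι → ℂ → ℂ) : Prop where
  hN : 0 < N
  pos : 0 < r
  diff : ∀ i, ∀ s ∈ ball (0 : ℂ) r, s ≠ 0 → DifferentiableAt ℂ (B i) s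
  ne : ∀ s ∈ ball (0 : ℂ) r, s ≠ 0 → ∀ i j, i ≠ j → B i s ≠ B j s
  cover : ∀ s ∈ ball (0 : ℂ) r, s ≠ 0 → q + s ^ N ∉ μ.support →
    ∃ i, N * s ^ (N - 1) * cauchy μ (q + s ^ N) = B i s
  null : volume μ.support = 0

/-- The region where the branch `i` is attained. -/
def Om (μ : Measure ℂ) (q : ℂ) (N : ℕ) (r : ℝ) (B : ι → ℂ → ℂ) (i : ι) : Set ℂ :=
  {s | s ∈ ball (0 : ℂ) r ∧ s ≠ 0 ∧ q + s ^ N ∉ μ.support ∧
    N * s ^ (N - 1) * cauchy μ (q + s ^ N) = B i s}

variable {μ : Measure ℂ} {q : ℂ} {N : ℕ} {r : ℝ} {B : ι → ℂ → ℂ}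

theorem Br.mem_om (h : Br μ q N r B) {s : ℂ} (hs : s ∈ ball (0 : ℂ) r) (h0 : s ≠ 0)
    (h1 : q + s ^ N ∉ μ.support) : ∃ i, s ∈ Om μ q N r B i :=
  (h.cover s hs h0 h1).imp fun _ hi => ⟨hs, h0, h1, hi⟩

theorem Br.ae (h : Br μ q N r B) : ∀ᵐ z, z ∉ μ.support := measure_eq_zero_iff_ae_notMem.1 h.null

theorem Br.om_eq (h : Br μ q N r B) {i : ι} {s z : ℂ} (hs : s ∈ Om μ q N r B i)
    (hz : q + s ^ N = z) : cauchy μ z = B i s / (N * s ^ (N - 1)) := by
  have h1 : (N : ℂ) * s ^ (N - 1) ≠ 0 :=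
    mul_ne_zero (by exact_mod_cast h.hN.ne') (pow_ne_zero _ hs.2.1)
  rw [← hs.2.2.2, hz, mul_div_cancel_left₀ _ h1]

theorem Br.mono (h : Br μ q N r B) {r' : ℝ} (h0 : 0 < r') (h1 : r' ≤ r) : Br μ q N r' B :=
  ⟨h.hN, h0, fun i s hs => h.diff i s (ball_subset_ball h1 hs),
    fun s hs => h.ne s (ball_subset_ball h1 hs), fun s hs => h.cover s (ball_subset_ball h1 hs),
    h.null⟩

theorem Br.congr (h : Br μ q N r B) {B' : ι → ℂ → ℂ} (hB : ∀ i s, s ≠ 0 → B' i s = B i s) :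
    Br μ q N r B' := by
  refine ⟨h.hN, h.pos, fun i s hs h0 => (h.diff i s hs h0).congr_of_eventuallyEq ?_,
    fun s hs h0 i j hij => ?_, fun s hs h0 h1 => ?_, h.null⟩
  · filter_upwards [eventually_ne_nhds h0] with w hw using hB i w hw
  · rw [hB i s h0, hB j s h0]
    exact h.ne s hs h0 i j hij
  · simp only [hB _ s h0]
    exact h.cover s hs h0 h1

theorem Br.restrict [Finite ι] (h : Br μ q N r B) : ∃ r' ≤ r,
    Br μ q N r' (fun i : {i // (0 : ℂ) ∈ closure (Om μ q N r B i)} => B i) ∧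
    ∀ i, (0 : ℂ) ∈ closure
      (Om μ q N r' (fun i : {i // (0 : ℂ) ∈ closure (Om μ q N r B i)} => B i) i) := by
  have h1 : ∀ᶠ s in 𝓝 (0 : ℂ), ∀ i, s ∈ Om μ q N r B i → (0 : ℂ) ∈ closure (Om μ q N r B i) := by
    refine eventually_all.2 fun i => ?_
    by_cases hi : (0 : ℂ) ∈ closure (Om μ q N r B i)
    · filter_upwards with s _ using hi
    · filter_upwards [isClosed_closure.isOpen_compl.mem_nhds hi] with s hs h2
      exact absurd (subset_closure h2) hs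
  obtain ⟨ε, hε, hb⟩ := Metric.eventually_nhds_iff_ball.1 h1
  have h2 := lt_min hε h.pos
  have h3 : ball (0 : ℂ) (min ε r) ⊆ ball 0 r := ball_subset_ball (min_le_right _ _)
  refine ⟨min ε r, min_le_right _ _, ⟨h.hN, h2, fun i s hs => h.diff i s (h3 hs),
    fun s hs h0 i j hij => h.ne s (h3 hs) h0 i j fun h4 => hij (Subtype.ext h4),
    fun s hs h0 h4 => ?_, h.null⟩, fun i => ?_⟩
  · obtain ⟨i, hi⟩ := h.mem_om (h3 hs) h0 h4
    exact ⟨⟨i, hb s (ball_subset_ball (min_le_left _ _) hs) i hi⟩, hi.2.2.2⟩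
  · refine closure_mono ?_ (isOpen_ball.inter_closure ⟨mem_ball_self h2, i.2⟩)
    exact fun s hs => ⟨hs.1, hs.2.2⟩

variable [IsFiniteMeasure μ] [Finite ι]

theorem Br.isOpen (h : Br μ q N r B) (i : ι) : IsOpen (Om μ q N r B i) := by
  rw [isOpen_iff_mem_nhds]
  rintro s ⟨hs, h0, h1, h2⟩
  have hp : ContinuousAt (fun w : ℂ => q + w ^ N) s := by fun_prop
  have hF : ContinuousAt (fun w : ℂ => N * w ^ (N - 1) * cauchy μ (q + w ^ N)) s :=
    ContinuousAt.mul (by fun_prop)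
      (ContinuousAt.comp (f := fun w : ℂ => q + w ^ N) (cauchy_continuousAt μ h1) hp)
  have h3 : ∀ᶠ w in 𝓝 s, ∀ j, N * w ^ (N - 1) * cauchy μ (q + w ^ N) = B j w → j = i := by
    refine eventually_all.2 fun j => ?_
    by_cases hj : j = i
    · filter_upwards with w _ using hj
    · have h4 := (hF.sub (h.diff j s hs h0).continuousAt).eventually_ne (y := 0) (by
        simp only [Pi.sub_apply, h2]
        exact sub_ne_zero.2 (h.ne s hs h0 i j (Ne.symm hj)))
      filter_upwards [h4] with w hw h5 using absurd (sub_eq_zero.2 h5) hw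
  filter_upwards [h3, isOpen_ball.mem_nhds hs, eventually_ne_nhds h0,
    hp.eventually (μ.isOpen_compl_support.mem_nhds h1)] with w h4 h5 h6 h7
  obtain ⟨j, hj⟩ := h.cover w h5 h6 h7
  exact ⟨h5, h6, h7, h4 j hj ▸ hj⟩

theorem Br.reg (h : Br μ q N r B) : Reg r B (Om μ q N r B) := by
  have hN0 : (N : ℂ) ≠ 0 := by exact_mod_cast h.hN.ne'
  have hloc : ∀ s₀ ∈ ball (0 : ℂ) r, s₀ ≠ 0 → ∃ σ : ℂ → ℂ, σ (q + s₀ ^ N) = s₀ ∧
      (∀ z, q + σ z ^ N = z) ∧ (∀ᶠ s in 𝓝 s₀, σ (q + s ^ N) = s) ∧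
      Tendsto σ (𝓝 (q + s₀ ^ N)) (𝓝 s₀) ∧
      ∀ᶠ z in 𝓝 (q + s₀ ^ N), ContinuousAt σ z ∧ (σ z ∈ ball (0 : ℂ) r ∧ σ z ≠ 0) ∧
        ∀ i, DifferentiableAt ℂ (fun w => B i (σ w) / (N * σ w ^ (N - 1))) z := by
    intro s₀ hs h0
    obtain ⟨σ, h1, h2, h3, h4⟩ := exists_root_inv q h0 h.hN
    have h5 : Tendsto σ (𝓝 (q + s₀ ^ N)) (𝓝 s₀) := by
      have := h4.self_of_nhds.continuousAt.tendsto
      rwa [h1] at this
    refine ⟨σ, h1, h2, h3, h5, ?_⟩
    filter_upwards [h4, h5.eventually (isOpen_ball.mem_nhds hs),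
      h5.eventually (eventually_ne_nhds h0)] with z h6 h7 h8
    refine ⟨h6.continuousAt, ⟨h7, h8⟩, fun i => ?_⟩
    exact ((h.diff i _ h7 h8).comp z h6).div ((h6.pow _).const_mul _)
      (mul_ne_zero hN0 (pow_ne_zero _ h8))
  refine ⟨h.isOpen, fun i j s hi hj => ?_, fun s hs h0 => ?_, fun s hs h0 i hi => ?_,
    fun s₀ hs h0 e he => ?_⟩
  · by_contra hij
    exact h.ne s hi.1 hi.2.1 i j hij (hi.2.2.2.symm.trans hj.2.2.2)
  · obtain ⟨σ, -, h2, -, h4, h5⟩ := hloc s hs h0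
    rw [← mem_iUnion, ← closure_iUnion_of_finite]
    refine mem_closure_of_frequently_of_tendsto ?_ h4
    refine ((mem_closure_iff_frequently.1 (Measure.dense_of_ae h.ae _)).and_eventually h5).mono ?_
    rintro z ⟨h6, -, h7, -⟩
    exact mem_iUnion.2 (h.mem_om h7.1 h7.2 (by rwa [h2]))
  · obtain ⟨σ, -, h2, -, h4, h5⟩ := hloc s hs h0
    have h6 : ∀ᶠ w in 𝓝 s, ∀ j, w ∈ Om μ q N r B j → j = i := by
      refine eventually_all.2 fun j => ?_
      by_cases hj : s ∈ closure (Om μ q N r B j)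
      · filter_upwards with w _ using hi j hj
      · filter_upwards [isClosed_closure.isOpen_compl.mem_nhds hj] with w hw h6
        exact absurd (subset_closure h6) hw
    obtain ⟨O, hO, hOo, hsO⟩ := _root_.eventually_nhds_iff.1 (h5.and (h4.eventually h6))
    have h7 : q + s ^ N ∉ μ.support := by
      refine notMem_support_of_holo μ (f := cauchy μ) (fun ψ hψ hc => cauchy_weak μ hψ hc)
        (A := fun w => B i (σ w) / (N * σ w ^ (N - 1))) hOo
        (fun z hz => ((hO z hz).1.2.2 i).differentiableWithinAt) ?_ hsO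
      filter_upwards [h.ae] with z hz hzO
      obtain ⟨⟨-, h8, -⟩, h9⟩ := hO z hzO
      obtain ⟨j, hj⟩ := h.mem_om h8.1 h8.2 (by rwa [h2])
      exact h.om_eq (h9 j hj ▸ hj) (h2 z)
    obtain ⟨j, hj⟩ := h.mem_om hs h0 h7
    exact hi j (subset_closure hj) ▸ hj
  · obtain ⟨σ, h1, h2, h3, h4, h5⟩ := hloc s₀ hs h0
    set A : ι → ℂ → ℂ := fun i w => B i (σ w) / (N * σ w ^ (N - 1)) with hA
    set D : ℂ := N * s₀ ^ (N - 1) with hD
    have hD0 : D ≠ 0 := mul_ne_zero hN0 (pow_ne_zero _ h0)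
    set ℓ : ι → ℝ := fun i => (e * B i s₀).re with hℓ
    have hℓs : ∀ i j, (e * (B j s₀ - B i s₀)).re = ℓ j - ℓ i := by
      intro i j
      rw [mul_sub, sub_re]
    have hAc : ∀ i, ContinuousAt (A i) (q + s₀ ^ N) := fun i =>
      (h5.self_of_nhds.2.2 i).continuousAt
    obtain ⟨M, hM⟩ := (finite_range fun i => ‖A i (q + s₀ ^ N)‖).bddAbove
    have h6 : ∀ᶠ z in 𝓝 (q + s₀ ^ N), ∀ i, ‖A i z‖ ≤ |M| + 1 :=
      eventually_all.2 fun i => (hAc i).norm.eventually (ge_mem_nhds (by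
        have := hM (mem_range_self i)
        have := le_abs_self M
        linarith))
    have h7 : ∀ᶠ x : ℂ × ℂ in 𝓝 (D * e, q + s₀ ^ N), ∀ i j, ℓ i ≤ ℓ j →
        0 ≤ (x.1 * (A j x.2 - A i x.2)).re := by
      refine eventually_all.2 fun i => eventually_all.2 fun j => ?_
      by_cases hij : i = j
      · filter_upwards with x _
        simp [hij]
      by_cases hl : ℓ i ≤ ℓ j
      · have hc : ContinuousAt (fun x : ℂ × ℂ => (x.1 * (A j x.2 - A i x.2)).re)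
            (D * e, q + s₀ ^ N) :=
          continuous_re.continuousAt.comp (continuousAt_fst.mul
            (ContinuousAt.comp (f := Prod.snd) (g := fun z => A j z - A i z)
              ((hAc j).sub (hAc i)) continuousAt_snd))
        have h8 : 0 < (D * e * (A j (q + s₀ ^ N) - A i (q + s₀ ^ N))).re := by
          have h9 : D * e * (A j (q + s₀ ^ N) - A i (q + s₀ ^ N)) = e * (B j s₀ - B i s₀) := by
            simp only [hA, h1, ← hD]
            field_simp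
          rw [h9]
          refine lt_of_le_of_ne ?_ (he i j hij).symm
          rw [hℓs]
          linarith
        filter_upwards [hc.eventually (lt_mem_nhds h8)] with x hx _ using hx.le
      · filter_upwards with x hx using absurd hx hl
    obtain ⟨ρ, hρ, hb⟩ := Metric.eventually_nhds_iff_ball.1
      (h7.and (continuousAt_snd.eventually (h5.and h6)))
    have hV : ∀ z ∈ ball (q + s₀ ^ N) ρ, (ContinuousAt σ z ∧ (σ z ∈ ball (0 : ℂ) r ∧ σ z ≠ 0) ∧
        ∀ i, DifferentiableAt ℂ (A i) z) ∧ ∀ i, ‖A i z‖ ≤ |M| + 1 := fun z hz =>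
      (hb (D * e, z) (by rw [← ball_prod_same]; exact ⟨mem_ball_self hρ, hz⟩)).2
    set Γ := interior {v : ℂ | ∀ w ∈ ball (q + s₀ ^ N) ρ, ∀ i j, ℓ i ≤ ℓ j →
      0 ≤ (v * (A j w - A i w)).re} with hΓ
    have hΓs : ∀ v ∈ Γ, ∀ t : ℝ, 0 < t → t • v ∈ Γ := by
      intro v hv t ht
      have hc : ContinuousAt (fun x : ℂ => t⁻¹ • x) (t • v) := by fun_prop
      rw [hΓ, mem_interior_iff_mem_nhds] at hv ⊢
      filter_upwards [hc.eventually (show _ ∈ 𝓝 (t⁻¹ • t • v) by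
        rwa [inv_smul_smul₀ ht.ne'])] with x hx w hw i j hij
      have h8 := hx w hw i j hij
      rw [smul_mul_assoc, smul_re, smul_eq_mul] at h8
      exact (mul_nonneg_iff_of_pos_left (inv_pos.2 ht)).1 h8
    have hΓb : ball (D * e) ρ ⊆ Γ := interior_maximal (fun v hv w hw =>
      (hb (v, w) (by rw [← ball_prod_same]; exact ⟨hv, hw⟩)).1) isOpen_ball
    have := Fintype.ofFinite ι
    have hmc := mono_cone μ (f := cauchy μ) (cauchy_aestronglyMeasurable μ)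
      (fun ψ hψ hc => cauchy_weak μ hψ hc) A ℓ (convex_ball (q + s₀ ^ N) ρ) isOpen_interior hΓs
      (M := |M| + 1) (by positivity) (fun i z hz => ((hV z hz).1.2.2 i).differentiableWithinAt)
      (fun i z hz => (hV z hz).2 i) (fun z hz i j hij h8 => by
        obtain ⟨h9, h10⟩ := (hV z hz).1.2.1
        exact h.ne _ h9 h10 i j hij
          ((div_left_inj' (mul_ne_zero hN0 (pow_ne_zero _ h10))).1 h8))
      (fun v hv => interior_subset hv) Finset.univ _ isOpen_ball subset_rfl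
      (fun _ _ _ h8 _ => h8) (by
        filter_upwards [h.ae] with z hz hzV
        obtain ⟨h9, h10⟩ := (hV z hzV).1.2.1
        obtain ⟨j, hj⟩ := h.mem_om h9 h10 (by rwa [h2])
        exact ⟨j, Finset.mem_univ _, h.om_eq hj (h2 z)⟩)
    have hst : HasStrictDerivAt (fun s : ℂ => q + s ^ N) D s₀ :=
      (hasStrictDerivAt_pow N s₀).const_add q
    have hc : 0 < ρ / (‖e‖ + 1) := by positivity
    have hp : ContinuousAt (fun w : ℂ => q + w ^ N) s₀ := by fun_prop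
    obtain ⟨η₁, hη₁, hb₁⟩ := Metric.eventually_nhds_iff_ball.1
      (hst.hasStrictFDerivAt.isLittleO.def hc)
    obtain ⟨η₂, hη₂, hb₂⟩ := Metric.eventually_nhds_iff_ball.1
      (h3.and (hp.eventually (ball_mem_nhds _ hρ)))
    have hae : ∀ i, ∀ a ∈ Om μ q N r B i, a ∈ ball s₀ η₂ →
        AeNear (fun w => cauchy μ w = A i w) (q + a ^ N) := by
      intro i a ha haU
      obtain ⟨h8, h9⟩ := hb₂ a haU
      obtain ⟨O, hO, hOo, haO⟩ := _root_.eventually_nhds_iff.1 ((hV _ h9).1.1.eventually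
        ((h.isOpen i).mem_nhds (by rwa [h8])))
      exact ⟨O, hOo, haO, Eventually.of_forall fun w hw => h.om_eq (hO w hw) (h2 w)⟩
    refine ⟨min η₁ η₂, lt_min hη₁ hη₂, fun s hs1 t ht hs2 i j hi hj => ?_⟩
    have hv : q + (s + t • e) ^ N - (q + s ^ N) ∈ Γ := by
      have h8 := hb₁ (s + t • e, s) (by
        rw [← ball_prod_same]
        exact ⟨ball_subset_ball (min_le_left _ _) hs2, ball_subset_ball (min_le_left _ _) hs1⟩)
      simp only [add_sub_cancel_left, ContinuousLinearMap.toSpanSingleton_apply] at h8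
      have h9 := hΓs _ (hΓb (a := t⁻¹ • (q + (s + t • e) ^ N - (q + s ^ N))) ?_) t ht
      · rwa [smul_inv_smul₀ ht.ne'] at h9
      · rw [mem_ball, dist_eq_norm]
        have h10 : t⁻¹ • (q + (s + t • e) ^ N - (q + s ^ N)) - D * e =
            t⁻¹ • (q + (s + t • e) ^ N - (q + s ^ N) - (t • e) • D) := by
          have : (t : ℂ) ≠ 0 := by exact_mod_cast ht.ne'
          simp only [real_smul, smul_eq_mul, ofReal_inv]
          field_simp
        rw [h10, norm_smul, norm_inv, Real.norm_of_nonneg ht.le, inv_mul_lt_iff₀ ht]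
        refine h8.trans_lt ?_
        rw [norm_smul, Real.norm_of_nonneg ht.le, div_mul_eq_mul_div, div_lt_iff₀ (by positivity)]
        nlinarith [mul_pos ht hρ]
    have hO : IsOpen {x : ℂ × ℂ | x.1 ∈ ball s₀ η₂ ∧ x.2 ∈ ball s₀ η₂ ∧
        q + x.2 ^ N - (q + x.1 ^ N) ∈ Γ} :=
      (isOpen_ball.preimage continuous_fst).inter ((isOpen_ball.preimage continuous_snd).inter
        (isOpen_interior.preimage (by fun_prop)))
    obtain ⟨⟨a, b⟩, ⟨ha, hb', hab⟩, hai, hbj⟩ := mem_closure_iff.1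
      (show (s, s + t • e) ∈ closure (Om μ q N r B i ×ˢ Om μ q N r B j) by
        rw [closure_prod_eq]; exact ⟨hi, hj⟩) _ hO
      ⟨ball_subset_ball (min_le_right _ _) hs1, ball_subset_ball (min_le_right _ _) hs2, hv⟩
    have h8 := hmc i (Finset.mem_univ _) j (Finset.mem_univ _) _ (hb₂ a ha).2 _ (hb₂ b hb').2 hab
      (hae i a hai ha) (hae j b hbj hb')
    by_cases hij : i = j
    · exact Or.inl hij
    · refine Or.inr (lt_of_le_of_ne ?_ (he i j hij).symm)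
      rw [hℓs]
      linarith

theorem Br.hol (h : Br μ q N r B) (hB : ∀ i, DifferentiableOn ℂ (B i) (ball 0 r)) :
    ∃ Φ, Hol (r / 2) B Φ (Om μ q N (r / 2) B) := by
  have hr := half_pos h.pos
  have h' := h.mono hr (half_le_self h.pos.le)
  have hsub : closedBall (0 : ℂ) (r / 2) ⊆ ball 0 r := closedBall_subset_ball (half_lt_self h.pos)
  have hB' : ∀ i, DifferentiableOn ℂ (B i) (ball 0 (r / 2)) := fun i =>
    (hB i).mono (ball_subset_closedBall.trans hsub)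
  choose Φ hΦ0 hΦ using fun i => (hB' i).isExactOn_ball.with_val_at 0 0
  choose M hM using fun i => (isCompact_closedBall (0 : ℂ) (r / 2)).exists_bound_of_continuousOn
    ((hB i).continuousOn.mono hsub)
  obtain ⟨M', hM'⟩ := (finite_range M).bddAbove
  refine ⟨Φ, hr, h'.reg, hB', h'.ne, hΦ, hΦ0, fun S hSo hSc hS => ?_⟩
  have hd : ∀ y : ℂ, deriv (fun s : ℂ => q + s ^ N) y = N * y ^ (N - 1) := fun y =>
    ((hasDerivAt_pow N y).const_add q).deriv
  obtain ⟨u, hu, hloc⟩ := H36.pot μ (fun s => q + s ^ N) S (2 * M') (by fun_prop) hSo hSc (by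
    intro x hx
    obtain ⟨σ, h1, h2, -, h4⟩ := exists_root_inv q (hS x hx).2 h.hN
    have h5 : Tendsto σ (𝓝 (q + x ^ N)) (𝓝 x) := by
      have := h4.self_of_nhds.continuousAt.tendsto
      rwa [h1] at this
    have hN0 : (N : ℂ) ≠ 0 := by exact_mod_cast h.hN.ne'
    have hc : ContinuousAt (fun y : ℂ => ‖(N : ℂ) * y ^ (N - 1)‖) x := by fun_prop
    have hpos : 0 < ‖(N : ℂ) * x ^ (N - 1)‖ :=
      norm_pos_iff.2 (mul_ne_zero hN0 (pow_ne_zero _ (hS x hx).2))
    refine ⟨_, (h5.eventually (hSo.mem_nhds hx)).and (h5.eventually (hc.eventually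
      (lt_mem_nhds (a := 2 / 3 * ‖(N : ℂ) * x ^ (N - 1)‖) (by linarith)))), ?_⟩
    filter_upwards [hc.eventually (gt_mem_nhds (a := 4 / 3 * ‖(N : ℂ) * x ^ (N - 1)‖)
      (by linarith))] with y hy
    filter_upwards [h.ae] with z hz ⟨h6, h7⟩
    obtain ⟨i, hi⟩ := h'.cover _ (hS _ h6).1 (hS _ h6).2 (by rwa [h2])
    have h8 := (hM i _ (ball_subset_closedBall (hS _ h6).1)).trans (hM' (mem_range_self i))
    rw [← hi, h2, norm_mul] at h8
    rw [hd]
    nlinarith [norm_nonneg (cauchy μ z)])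
  refine ⟨u, hu, fun i s hs => hΦ i s (hS s hs).1, fun i x hx hxS => hloc x hxS _ hx.2.2.1 ?_⟩
  filter_upwards [(h'.isOpen i).mem_nhds hx] with y hy
  rw [hd, hy.2.2.2]
  exact hΦ i y hy.1

end Pool.Agent.MP_46692b_an.H78
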